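import Pool.Agent.Lib.MP_777af9_an.Defs

/-!
# MP_777af9_an: the Walsh model, definitions

Walsh-Fourier partial sums in the order of Paley, their maximal operator, strong `L¹` bounds on
Lorentz spaces.
-/

open MeasureTheory Set Filter Topology
open scoped ENNReal

noncomputable section

namespace Pool.Agent.MP777.Walsh

/-- Rademacher function `r_k`, `k ≥ 0`: `(-1)^b`, where `b` is the binary digit number `k + 1` of
`x`, that is the parity of `⌊2^(k+1) x⌋`. -/
def rad (k : ℕ) (x : ℝ) : ℝ := if Even ⌊(2 : ℝ) ^ (k + 1) * x⌋ then 1 else -1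

/-- Walsh functions in the order of Paley: `w_N` is the product of the `r_k` over all `k` such that
the coefficient of `2^k` in the binary expansion of `N` is `1`. -/
def wal (N : ℕ) (x : ℝ) : ℝ := ∏ k ∈ Finset.range N, if N.testBit k then rad k x else 1

/-- Walsh-Fourier coefficients. -/
def wco (f : ℝ → ℂ) (M : ℕ) : ℂ := ∫ t in (0 : ℝ)..1, f t * ((wal M t : ℝ) : ℂ)

/-- Partial sums `S_N f` of the Walsh-Fourier series. -/
def wS (N : ℕ) (f : ℝ → ℂ) (x : ℝ) : ℂ := ∑ M ∈ Finset.range N, wco f M * ((wal M x : ℝ) : ℂ)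

/-- The maximal operator of the partial sums (Carleson operator of the Walsh system). -/
def Wf (f : ℝ → ℂ) (x : ℝ) : ℝ≥0∞ := ⨆ N : ℕ, ‖wS N f x‖ₑ

/-- The `L¹` norm of the maximal operator applied to `f`. -/
def WL1 (f : ℝ → ℂ) : ℝ≥0∞ := ∫⁻ x in Ioc (0 : ℝ) 1, Wf f x

/-- Strongly admissible for the Walsh system: `∫ sup_N |S_N f| ≤ c ‖f‖` for all bounded measurable
`f`. -/
def AdmW (φ : ℝ → ℝ) : Prop :=
  ∃ c : ℝ, 0 < c ∧ ∀ f : ℝ → ℂ, Measurable f → (∃ B : ℝ, ∀ x, ‖f x‖ ≤ B) →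
    WL1 f ≤ ENNReal.ofReal c * lor φ f

/-! ## The cube -/

/-- The cube `{0,1}^n`. -/
abbrev Cu (n : ℕ) := Fin n → Bool

/-- Sign of a bit. -/
def sg (b : Bool) : ℝ := if b then -1 else 1

/-- The first `m` binary digits of `x`. -/
def bits (m : ℕ) (x : ℝ) : Cu m := fun p => decide (¬ Even ⌊(2 : ℝ) ^ ((p : ℕ) + 1) * x⌋)

/-- Walsh monomials in a sequence `z`. -/
def W (z : ℕ → ℝ) (N : ℕ) : ℝ := ∏ k ∈ Finset.range N, if N.testBit k then z k else 1

/-- A point of the cube as a sequence of signs (continued by `1`). -/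
def ext {m : ℕ} (ω : Cu m) (p : ℕ) : ℝ := if h : p < m then sg (ω ⟨p, h⟩) else 1

/-- Majority: more signs `1` than signs `-1`. -/
def Mj {D : ℕ} (y : Cu D) : Prop := 0 < ∑ k, sg (y k)

instance {D : ℕ} (y : Cu D) : Decidable (Mj y) := Classical.propDecidable _

/-- `Δ_k` of the indicator of `Mj` at the point `y`: conditional expectation given the digits
`0, ..., k` minus conditional expectation given the digits `0, ..., k - 1`. -/
def kap {D : ℕ} (k : Fin D) (y : Cu D) : ℝ :=
  (∑ ω : Cu D, if Mj ω then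
    sg (y k) * sg (ω k) * ∏ q ∈ Finset.univ.filter (fun q => q < k), (1 + sg (y q) * sg (ω q))
    else 0) / 2 ^ D

/-- Block number `i` of a point of the cube of dimension `(s + 1) D`. -/
def blk {s D : ℕ} (x : Cu ((s + 1) * D)) (i : Fin (s + 1)) : Cu D :=
  fun k => x (finProdFinEquiv (i, k))

/-- The set `E`: the blocks `0, ..., s - 1` are in `Mj`, the last block is the sum of the others
modulo two. -/
def InE {s D : ℕ} (x : Cu ((s + 1) * D)) : Prop :=
  (∀ i : Fin s, Mj (blk x i.castSucc)) ∧ ∀ k : Fin D, ∏ i, sg (blk x i k) = 1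

instance {s D : ℕ} (x : Cu ((s + 1) * D)) : Decidable (InE x) := Classical.propDecidable _

/-- The gain of one block. -/
def gn (D : ℕ) : ℝ :=
  (∑ y : Cu D, if Mj y then 0 else |∑ k : Fin D, if y k then kap k y else 0|) / 2 ^ D

/-- First absolute moment `E |r_1 + ... + r_D|`. -/
def A1 (D : ℕ) : ℝ := (∑ y : Cu D, |∑ k, sg (y k)|) / 2 ^ D

/-- The set `E` on the line. -/
def ER (s D : ℕ) : Set ℝ := {x ∈ Ioc (0 : ℝ) 1 | InE (bits ((s + 1) * D) x)}

end Pool.Agent.MP777.Walsh
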