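import Pool.Agent.Lib.MP_777af9_an.Walsh.Spec

/-!
# MP_777af9_an: the Walsh model, the Dirichlet kernel in the order of Paley (Dir)
-/

open MeasureTheory Set Filter Topology
open scoped ENNReal

noncomputable section

namespace Pool.Agent.MP777.Walsh

private theorem tb_false {N k : ℕ} (h : N ≤ k) : N.testBit k = false :=
  Nat.testBit_lt_two_pow (lt_of_lt_of_le Nat.lt_two_pow_self (Nat.pow_le_pow_right (by norm_num) h))

private theorem tb_false' {N K k : ℕ} (hN : N < 2 ^ K) (h : K ≤ k) : N.testBit k = false :=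
  Nat.testBit_lt_two_pow (lt_of_lt_of_le hN (Nat.pow_le_pow_right (by norm_num) h))

private theorem prod_rg (f : ℕ → ℝ) {N K : ℕ} (hN : N < 2 ^ K) :
    (∏ k ∈ Finset.range N, if N.testBit k then f k else 1) =
      ∏ k ∈ Finset.range K, if N.testBit k then f k else 1 := by
  have key : ∀ a b : ℕ, (∀ k, a ≤ k → N.testBit k = false) → a ≤ b →
      (∏ k ∈ Finset.range a, if N.testBit k then f k else 1) =
        ∏ k ∈ Finset.range b, if N.testBit k then f k else 1 := by
    intro a b ha hab
    refine Finset.prod_subset (Finset.range_subset_range.2 hab) ?_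
    intro k _ hk
    rw [Finset.mem_range, not_lt] at hk
    rw [ha k hk]
    simp
  rw [key N (max N K) (fun k hk => tb_false hk) (le_max_left _ _),
    key K (max N K) (fun k hk => tb_false' hN hk) (le_max_right _ _)]

private theorem sum_rg (f : ℕ → ℝ) {N K : ℕ} (hN : N < 2 ^ K) :
    (∑ k ∈ Finset.range N, if N.testBit k then f k else 0) =
      ∑ k ∈ Finset.range K, if N.testBit k then f k else 0 := by
  have key : ∀ a b : ℕ, (∀ k, a ≤ k → N.testBit k = false) → a ≤ b →
      (∑ k ∈ Finset.range a, if N.testBit k then f k else 0) =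
        ∑ k ∈ Finset.range b, if N.testBit k then f k else 0 := by
    intro a b ha hab
    refine Finset.sum_subset (Finset.range_subset_range.2 hab) ?_
    intro k _ hk
    rw [Finset.mem_range, not_lt] at hk
    rw [ha k hk]
    simp
  rw [key N (max N K) (fun k hk => tb_false hk) (le_max_left _ _),
    key K (max N K) (fun k hk => tb_false' hN hk) (le_max_right _ _)]

private theorem W_rg (z : ℕ → ℝ) {N K : ℕ} (hN : N < 2 ^ K) :
    W z N = ∏ k ∈ Finset.range K, if N.testBit k then z k else 1 := prod_rg z hN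

private theorem W_add (z : ℕ → ℝ) {M k : ℕ} (hM : M < 2 ^ k) :
    W z (2 ^ k + M) = z k * W z M := by
  rw [W_rg z (N := 2 ^ k + M) (K := k + 1) (by rw [pow_succ]; omega), W_rg z hM,
    Finset.prod_range_succ, Nat.testBit_two_pow_add_eq, Nat.testBit_lt_two_pow hM]
  simp only [Bool.not_false, if_true]
  rw [mul_comm]
  congr 1
  refine Finset.prod_congr rfl fun j hj => ?_
  rw [Nat.testBit_two_pow_add_gt (Finset.mem_range.1 hj)]

private theorem W_sum (z : ℕ → ℝ) (k : ℕ) :
    ∑ M ∈ Finset.range (2 ^ k), W z M = ∏ q ∈ Finset.range k, (1 + z q) := by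
  induction k with
  | zero => simp [W]
  | succ k ih =>
    rw [pow_succ, mul_two, Finset.sum_range_add, ih, Finset.prod_range_succ, mul_add, mul_one]
    congr 1
    rw [← ih, Finset.sum_mul]
    refine Finset.sum_congr rfl fun M hM => ?_
    rw [W_add z (Finset.mem_range.1 hM), mul_comm]

private theorem W_abs (z : ℕ → ℝ) (hz : ∀ k, z k ^ 2 = 1) {N k : ℕ} (hN : N < 2 ^ k) :
    W z N * ∏ q ∈ Finset.range k, (1 + z q) = ∏ q ∈ Finset.range k, (1 + z q) := by
  rw [W_rg z hN, ← Finset.prod_mul_distrib]
  refine Finset.prod_congr rfl fun q _ => ?_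
  by_cases h : N.testBit q
  · rw [if_pos h]
    linear_combination hz q
  · rw [if_neg h, one_mul]

theorem pDir : S_Dir := by
  intro z hz N
  induction N using Nat.strong_induction_on with
  | _ N ih =>
    rcases Nat.eq_zero_or_pos N with rfl | hpos
    · simp
    obtain ⟨k, N', hN, hN'⟩ : ∃ k N' : ℕ, N = 2 ^ k + N' ∧ N' < 2 ^ k := by
      refine ⟨Nat.log 2 N, N - 2 ^ Nat.log 2 N, ?_, ?_⟩
      · have := Nat.pow_log_le_self 2 hpos.ne'
        omega
      · have h1 := Nat.pow_log_le_self 2 hpos.ne'
        have h2 := Nat.lt_pow_succ_log_self (by norm_num : 1 < 2) N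
        rw [pow_succ] at h2
        omega
    have hpk : 0 < 2 ^ k := by positivity
    have hNk : N < 2 ^ (k + 1) := by rw [hN, pow_succ]; omega
    have e1 : ∑ M ∈ Finset.range N, W z M =
        (∏ q ∈ Finset.range k, (1 + z q)) + z k * ∑ M ∈ Finset.range N', W z M := by
      rw [hN, Finset.sum_range_add, W_sum, Finset.mul_sum]
      congr 1
      refine Finset.sum_congr rfl fun M hM => ?_
      rw [W_add z ((Finset.mem_range.1 hM).trans hN')]
    have e2 : (∑ p ∈ Finset.range N, if N.testBit p then
          z p * ∏ q ∈ Finset.range p, (1 + z q) else 0) =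
        (∑ p ∈ Finset.range N', if N'.testBit p then
          z p * ∏ q ∈ Finset.range p, (1 + z q) else 0) +
          z k * ∏ q ∈ Finset.range k, (1 + z q) := by
      rw [sum_rg (fun p => z p * ∏ q ∈ Finset.range p, (1 + z q)) hNk,
        sum_rg (fun p => z p * ∏ q ∈ Finset.range p, (1 + z q)) hN', Finset.sum_range_succ]
      congr 1
      · refine Finset.sum_congr rfl fun p hp => ?_
        rw [hN, Nat.testBit_two_pow_add_gt (Finset.mem_range.1 hp)]
      · rw [hN, Nat.testBit_two_pow_add_eq, Nat.testBit_lt_two_pow hN']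
        simp
    have e3 := ih N' (by omega)
    have e4 : W z N = z k * W z N' := by rw [hN, W_add z hN']
    have e5 := W_abs z hz hN'
    rw [e1, e2, e4, e3]
    have e6 : z k * W z N' * (z k * ∏ q ∈ Finset.range k, (1 + z q)) =
        ∏ q ∈ Finset.range k, (1 + z q) := by
      calc z k * W z N' * (z k * ∏ q ∈ Finset.range k, (1 + z q))
          = z k ^ 2 * (W z N' * ∏ q ∈ Finset.range k, (1 + z q)) := by ring
        _ = ∏ q ∈ Finset.range k, (1 + z q) := by rw [hz, one_mul, e5]
    rw [mul_add, e6]
    ring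

end Pool.Agent.MP777.Walsh
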