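import Pool.Agent.Lib.MP_777af9_an.Walsh.Spec

/-!
# MP_777af9_an: the Walsh model, product structure of `E`
-/

noncomputable section

namespace Pool.Agent.MP777.Walsh

private theorem fac_sg (b : Bool) : sg b = 1 ∨ sg b = -1 := by
  cases b <;> simp [sg]

private theorem fac_sg_sq (b : Bool) : sg b * sg b = 1 := by
  cases b <;> simp [sg]

private theorem fac_sg_ne {a b : Bool} (h : a ≠ b) : 1 + sg a * sg b = 0 := by
  cases a <;> cases b <;> simp_all [sg]

private theorem fac_prod_sg {ι : Type} (t : Finset ι) (f : ι → Bool) :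
    (∏ i ∈ t, sg (f i)) = 1 ∨ (∏ i ∈ t, sg (f i)) = -1 := by
  classical
  induction t using Finset.induction_on with
  | empty => left; simp
  | insert a t ha ih =>
    rw [Finset.prod_insert ha]
    rcases fac_sg (f a) with h | h <;> rcases ih with h' | h' <;> rw [h, h'] <;> norm_num

/-- a bit with a given sign -/
private def fac_bit (P : ℝ) : Bool := decide (P = -1)

private theorem fac_sg_bit {P : ℝ} (h : P = 1 ∨ P = -1) : sg (fac_bit P) = P := by
  rcases h with h | h
  · rw [h]
    unfold fac_bit sg
    norm_num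
  · rw [h]
    unfold fac_bit sg
    norm_num

private theorem fac_bit_sg (b : Bool) : fac_bit (sg b) = b := by
  cases b
  · unfold fac_bit sg
    norm_num
  · unfold fac_bit sg
    norm_num

private theorem fac_ext {s D : ℕ} (ω : Cu ((s + 1) * D)) (i : Fin (s + 1)) (k : Fin D) :
    ext ω ((k : ℕ) + D * (i : ℕ)) = sg (blk ω i k) := by
  have h : (k : ℕ) + D * (i : ℕ) < (s + 1) * D := (finProdFinEquiv (i, k)).isLt
  unfold ext
  rw [dif_pos h]
  rfl

private theorem fac_range (f : ℕ → ℝ) {n m : ℕ} (h : n ≤ m) :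
    ∏ q ∈ Finset.range n, f q = ∏ q : Fin m, if (q : ℕ) < n then f q else 1 := by
  rw [← Finset.prod_range (fun q => if q < n then f q else 1), ← Finset.prod_filter]
  refine Finset.prod_congr ?_ fun _ _ => rfl
  ext q
  simp only [Finset.mem_range, Finset.mem_filter]
  omega

private theorem fac_blocks (f : ℕ → ℝ) (D k : ℕ) (i : ℕ) :
    ∏ q ∈ Finset.range (k + D * i), f q =
      (∏ i' ∈ Finset.range i, ∏ k' ∈ Finset.range D, f (k' + D * i')) *
        ∏ k' ∈ Finset.range k, f (k' + D * i) := by
  have h : ∀ j : ℕ, ∏ q ∈ Finset.range (D * j), f q =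
      ∏ i' ∈ Finset.range j, ∏ k' ∈ Finset.range D, f (k' + D * i') := by
    intro j
    induction j with
    | zero => simp
    | succ j ih =>
      rw [Nat.mul_succ, Finset.prod_range_add, ih, Finset.prod_range_succ]
      congr 1
      exact Finset.prod_congr rfl fun k' _ => by rw [add_comm]
  rw [add_comm k, Finset.prod_range_add, h]
  congr 1
  exact Finset.prod_congr rfl fun k' _ => by rw [add_comm]

/-- the kernel in blocks -/
private theorem fac_ker {s D : ℕ} (x ω : Cu ((s + 1) * D)) (i : Fin s) (k : Fin D) :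
    ker x ω ((k : ℕ) + D * (i : ℕ)) =
      ∏ i' : Fin s, if i' < i then
          ∏ k' : Fin D, (1 + sg (blk x i'.castSucc k') * sg (blk ω i'.castSucc k'))
        else if i' = i then sg (blk x i.castSucc k) * sg (blk ω i.castSucc k) *
          ∏ k' ∈ Finset.univ.filter (fun q => q < k),
            (1 + sg (blk x i.castSucc k') * sg (blk ω i.castSucc k'))
        else 1 := by
  have h1 : ∀ (z : Cu ((s + 1) * D)) (i' : Fin s) (k' : Fin D),
      ext z ((k' : ℕ) + D * (i' : ℕ)) = sg (blk z i'.castSucc k') := fun z i' k' =>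
    fac_ext z i'.castSucc k'
  unfold ker
  rw [fac_blocks, h1, h1]
  rw [fac_range _ (show (i : ℕ) ≤ s from i.isLt.le)]
  have h2 : ∀ i' : Fin s, (∏ k' ∈ Finset.range D, (1 + ext x (k' + D * (i' : ℕ)) *
      ext ω (k' + D * (i' : ℕ)))) =
      ∏ k' : Fin D, (1 + sg (blk x i'.castSucc k') * sg (blk ω i'.castSucc k')) := by
    intro i'
    rw [Finset.prod_range]
    exact Finset.prod_congr rfl fun k' _ => by rw [h1, h1]
  have h3 : (∏ k' ∈ Finset.range (k : ℕ), (1 + ext x (k' + D * (i : ℕ)) *
      ext ω (k' + D * (i : ℕ)))) =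
      ∏ k' ∈ Finset.univ.filter (fun q => q < k),
        (1 + sg (blk x i.castSucc k') * sg (blk ω i.castSucc k')) := by
    rw [fac_range _ (show (k : ℕ) ≤ D from k.isLt.le), Finset.prod_filter]
    refine Finset.prod_congr rfl fun k' _ => ?_
    rw [h1, h1]
    rfl
  rw [h3]
  have h4 : ∀ (a b : Fin s → ℝ) (c : ℝ), (∏ i' : Fin s, if i' < i then a i' else
      if i' = i then c else 1) = (∏ i' : Fin s, if (i' : ℕ) < (i : ℕ) then a i' else 1) * c := by
    intro a b c
    have : ∀ i' : Fin s, (if i' < i then a i' else if i' = i then c else 1) =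
        (if (i' : ℕ) < (i : ℕ) then a i' else 1) * (if i' = i then c else 1) := by
      intro i'
      rcases lt_trichotomy i' i with h | h | h
      · rw [if_pos h, if_pos (show (i' : ℕ) < (i : ℕ) from h), if_neg h.ne, mul_one]
      · rw [h, if_neg (lt_irrefl _), if_pos rfl, if_neg (lt_irrefl _), one_mul]
      · rw [if_neg h.not_gt, if_neg h.ne',
          if_neg (show ¬ (i' : ℕ) < (i : ℕ) from not_lt.2 (le_of_lt h)), one_mul]
    rw [Finset.prod_congr rfl fun i' _ => this i', Finset.prod_mul_distrib,
      Finset.prod_ite_eq' Finset.univ i (fun _ => c), if_pos (Finset.mem_univ i)]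
  rw [h4 _ (fun _ => 1)]
  simp only [h2]
  ring

/-- the point of `E` with given blocks -/
private def fac_mk {s D : ℕ} (y : Fin s → Cu D) : Cu ((s + 1) * D) := fun p =>
  Fin.lastCases (motive := fun _ => Bool)
    (fac_bit (∏ i, sg (y i (finProdFinEquiv.symm p).2)))
    (fun i => y i (finProdFinEquiv.symm p).2) (finProdFinEquiv.symm p).1

private theorem fac_mk_cast {s D : ℕ} (y : Fin s → Cu D) (i : Fin s) :
    blk (fac_mk y) i.castSucc = y i := by
  funext k
  unfold blk fac_mk
  rw [Equiv.symm_apply_apply]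
  exact Fin.lastCases_castSucc i

private theorem fac_mk_last {s D : ℕ} (y : Fin s → Cu D) (k : Fin D) :
    blk (fac_mk y) (Fin.last s) k = fac_bit (∏ i, sg (y i k)) := by
  unfold blk fac_mk
  rw [Equiv.symm_apply_apply]
  exact Fin.lastCases_last

private theorem fac_mk_inE {s D : ℕ} (y : Fin s → Cu D) (hy : ∀ i, Mj (y i)) :
    InE (fac_mk y) := by
  refine ⟨fun i => ?_, fun k => ?_⟩
  · rw [fac_mk_cast]
    exact hy i
  · rw [Fin.prod_univ_castSucc, fac_mk_last, fac_sg_bit (fac_prod_sg _ _)]
    simp only [fac_mk_cast]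
    rcases fac_prod_sg Finset.univ (fun i => y i k) with h | h <;> rw [h] <;> norm_num

private theorem fac_mk_blk {s D : ℕ} (ω : Cu ((s + 1) * D)) (h : InE ω) :
    fac_mk (fun i : Fin s => blk ω i.castSucc) = ω := by
  have key : ∀ (i : Fin (s + 1)) (k : Fin D),
      blk (fac_mk (fun i : Fin s => blk ω i.castSucc)) i k = blk ω i k := by
    intro i k
    refine Fin.lastCases ?_ (fun j => ?_) i
    · rw [fac_mk_last]
      have h1 := h.2 k
      rw [Fin.prod_univ_castSucc] at h1
      have h2 : (∏ i : Fin s, sg (blk ω i.castSucc k)) = sg (blk ω (Fin.last s) k) := by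
        have h3 := fac_sg_sq (blk ω (Fin.last s) k)
        linear_combination (sg (blk ω (Fin.last s) k)) * h1 -
          (∏ i : Fin s, sg (blk ω i.castSucc k)) * h3
      rw [h2, fac_bit_sg]
    · rw [fac_mk_cast]
  funext p
  have h1 : fac_mk (fun i : Fin s => blk ω i.castSucc)
      (finProdFinEquiv ((finProdFinEquiv.symm p).1, (finProdFinEquiv.symm p).2)) =
      ω (finProdFinEquiv ((finProdFinEquiv.symm p).1, (finProdFinEquiv.symm p).2)) :=
    key (finProdFinEquiv.symm p).1 (finProdFinEquiv.symm p).2
  rw [Prod.mk.eta, Equiv.apply_symm_apply] at h1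
  exact h1

private theorem fac_sum {s D : ℕ} (f : Cu ((s + 1) * D) → ℝ) :
    ∑ ω : Cu ((s + 1) * D), (if InE ω then (1 : ℝ) else 0) * f ω =
      ∑ y : Fin s → Cu D, if ∀ i, Mj (y i) then f (fac_mk y) else 0 := by
  classical
  have h1 : ∀ ω : Cu ((s + 1) * D), (if InE ω then (1 : ℝ) else 0) * f ω =
      if InE ω then f ω else 0 := by
    intro ω
    split_ifs <;> simp
  rw [Finset.sum_congr rfl fun ω _ => h1 ω, ← Finset.sum_filter, ← Finset.sum_filter]
  refine Finset.sum_bij' (fun ω _ => fun i : Fin s => blk ω i.castSucc) (fun y _ => fac_mk y)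
    ?_ ?_ ?_ ?_ ?_
  · intro ω hω
    exact Finset.mem_filter.2 ⟨Finset.mem_univ _, fun i => (Finset.mem_filter.1 hω).2.1 i⟩
  · intro y hy
    exact Finset.mem_filter.2 ⟨Finset.mem_univ _, fac_mk_inE y (Finset.mem_filter.1 hy).2⟩
  · intro ω hω
    exact fac_mk_blk ω (Finset.mem_filter.1 hω).2
  · intro y _
    funext i
    exact fac_mk_cast y i
  · intro ω hω
    rw [fac_mk_blk ω (Finset.mem_filter.1 hω).2]

private theorem fac_delta {D : ℕ} (a : Cu D) :
    (∑ z : Cu D, if Mj z then ∏ k', (1 + sg (a k') * sg (z k')) else 0) =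
      if Mj a then 2 ^ D else 0 := by
  classical
  rw [Finset.sum_eq_single a]
  · congr 1
    rw [Finset.prod_congr rfl fun k' _ => show (1 + sg (a k') * sg (a k')) = 2 by
      rw [fac_sg_sq]; norm_num]
    simp
  · intro z _ hz
    have : ∃ k', a k' ≠ z k' := by
      by_contra hcon
      push Not at hcon
      exact hz (funext fun k' => (hcon k').symm)
    obtain ⟨k', hk'⟩ := this
    rw [Finset.prod_eq_zero (Finset.mem_univ k') (fac_sg_ne hk')]
    simp
  · intro h
    exact absurd (Finset.mem_univ a) h

/-- **Fac.** -/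
theorem pFac (h1 : S_Half) : S_Fac := by
  classical
  intro s D hD x
  have hD1 : 1 ≤ D := hD.pos
  constructor
  · intro i k
    rw [fac_sum]
    have e1 : ∀ y : Fin s → Cu D,
        (if ∀ i', Mj (y i') then ker x (fac_mk y) ((k : ℕ) + D * (i : ℕ)) else 0) =
        ∏ i' : Fin s, (if Mj (y i') then (if i' < i then
            ∏ k' : Fin D, (1 + sg (blk x i'.castSucc k') * sg (y i' k'))
          else if i' = i then sg (blk x i.castSucc k) * sg (y i' k) *
            ∏ k' ∈ Finset.univ.filter (fun q => q < k),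
              (1 + sg (blk x i.castSucc k') * sg (y i' k'))
          else 1) else 0) := by
      intro y
      by_cases hy : ∀ i', Mj (y i')
      · rw [if_pos hy, fac_ker]
        refine Finset.prod_congr rfl fun i' _ => ?_
        rw [if_pos (hy i'), fac_mk_cast, fac_mk_cast]
        by_cases hi : i' < i
        · rw [if_pos hi, if_pos hi]
        · rw [if_neg hi, if_neg hi]
          by_cases hi' : i' = i
          · rw [if_pos hi', if_pos hi', hi']
          · rw [if_neg hi', if_neg hi']
      · rw [if_neg hy]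
        push Not at hy
        obtain ⟨i', hi'⟩ := hy
        rw [Finset.prod_eq_zero (Finset.mem_univ i')]
        rw [if_neg hi']
    rw [Finset.sum_congr rfl fun y _ => e1 y]
    have e2 := (Finset.prod_univ_sum (fun _ : Fin s => (Finset.univ : Finset (Cu D)))
      (fun i' z => (if Mj z then (if i' < i then
            ∏ k' : Fin D, (1 + sg (blk x i'.castSucc k') * sg (z k'))
          else if i' = i then sg (blk x i.castSucc k) * sg (z k) *
            ∏ k' ∈ Finset.univ.filter (fun q => q < k),
              (1 + sg (blk x i.castSucc k') * sg (z k'))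
          else (1 : ℝ)) else 0)))
    rw [Fintype.piFinset_univ] at e2
    rw [← e2]
    have e3 : ∀ i' : Fin s, (∑ z : Cu D, (if Mj z then (if i' < i then
            ∏ k' : Fin D, (1 + sg (blk x i'.castSucc k') * sg (z k'))
          else if i' = i then sg (blk x i.castSucc k) * sg (z k) *
            ∏ k' ∈ Finset.univ.filter (fun q => q < k),
              (1 + sg (blk x i.castSucc k') * sg (z k'))
          else (1 : ℝ)) else 0)) =
        2 ^ (D - 1) * ((if i' < i then (if Mj (blk x i'.castSucc) then 2 else 0) else 1) *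
          (if i' = i then 2 * kap k (blk x i.castSucc) else 1)) := by
      intro i'
      have h2 : (2 : ℝ) ^ D = 2 ^ (D - 1) * 2 := by
        rw [← pow_succ, Nat.sub_add_cancel hD1]
      rcases lt_trichotomy i' i with h | h | h
      · simp only [if_pos h, if_neg h.ne, mul_one]
        rw [fac_delta]
        split_ifs
        · exact h2
        · simp
      · subst h
        simp only [if_neg (lt_irrefl i'), if_true, one_mul]
        have h3 : kap k (blk x i'.castSucc) * 2 ^ D = ∑ z : Cu D, (if Mj z then
            sg (blk x i'.castSucc k) * sg (z k) *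
            ∏ k' ∈ Finset.univ.filter (fun q => q < k),
              (1 + sg (blk x i'.castSucc k') * sg (z k')) else 0) := by
          unfold kap
          rw [div_mul_cancel₀ _ (by positivity)]
        rw [← h3, h2]
        ring
      · simp only [if_neg h.not_gt, if_neg h.ne', mul_one]
        rw [← Finset.sum_filter, Finset.sum_const, nsmul_eq_mul, mul_one, h1 D hD]
        push_cast
        rfl
    rw [Finset.prod_congr rfl fun i' _ => e3 i', Finset.prod_mul_distrib,
      Finset.prod_mul_distrib, Finset.prod_const, Finset.card_univ, Fintype.card_fin,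
      Finset.prod_ite_eq' Finset.univ i (fun _ => 2 * kap k (blk x i.castSucc)),
      if_pos (Finset.mem_univ i)]
    have e4 : (∏ i' : Fin s, if i' < i then (if Mj (blk x i'.castSucc) then (2 : ℝ) else 0)
        else 1) = if ∀ i' : Fin s, i' < i → Mj (blk x i'.castSucc) then 2 ^ (i : ℕ) else 0 := by
      by_cases hall : ∀ i' : Fin s, i' < i → Mj (blk x i'.castSucc)
      · rw [if_pos hall]
        have : ∀ i' : Fin s, (if i' < i then (if Mj (blk x i'.castSucc) then (2 : ℝ) else 0)
            else 1) = if (i' : ℕ) < (i : ℕ) then 2 else 1 := by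
          intro i'
          by_cases hi : i' < i
          · rw [if_pos hi, if_pos (hall i' hi), if_pos (show (i' : ℕ) < (i : ℕ) from hi)]
          · rw [if_neg hi, if_neg (show ¬ (i' : ℕ) < (i : ℕ) from hi)]
        rw [Finset.prod_congr rfl fun i' _ => this i',
          ← fac_range (fun _ => (2 : ℝ)) (show (i : ℕ) ≤ s from i.isLt.le)]
        simp
      · rw [if_neg hall]
        push Not at hall
        obtain ⟨i', hi', hM⟩ := hall
        rw [Finset.prod_eq_zero (Finset.mem_univ i')]
        rw [if_pos hi', if_neg hM]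
    rw [e4]
    have e5 : (2 : ℝ) ^ ((s + 1) * D) = (2 ^ (D - 1)) ^ s * 2 ^ (s + D) := by
      rw [← pow_mul, ← pow_add]
      congr 1
      obtain ⟨d, rfl⟩ : ∃ d, D = d + 1 := ⟨D - 1, by omega⟩
      simp only [Nat.add_sub_cancel]
      ring
    rw [e5, mul_div_mul_left _ _ (by positivity)]
    split_ifs
    · rw [pow_succ]
      ring
    · simp
  · intro j hj k ω hω
    have hne : ∃ k' : Fin D, blk x j.castSucc k' ≠ blk ω j.castSucc k' := by
      by_contra hcon
      push Not at hcon
      exact hj ((funext hcon : blk x j.castSucc = blk ω j.castSucc) ▸ hω.1 j)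
    obtain ⟨k', hk'⟩ := hne
    unfold ker
    rw [Finset.prod_eq_zero (i := (k' : ℕ) + D * (j : ℕ)), mul_zero]
    · rw [Finset.mem_range]
      have h2 : D * ((j : ℕ) + 1) ≤ D * s := Nat.mul_le_mul_left _ j.isLt
      have h3 := k'.isLt
      rw [Nat.mul_succ] at h2
      omega
    · have h2 := fac_ext x j.castSucc k'
      have h3 := fac_ext ω j.castSucc k'
      rw [Fin.val_castSucc] at h2 h3
      rw [h2, h3]
      exact fac_sg_ne hk'

end Pool.Agent.MP777.Walsh
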