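import Pool.Agent.Lib.MP_777af9_an.Walsh.Spec
import Pool.Agent.Lib.MP_777af9_an.Phi

/-!
# MP_777af9_an, Walsh model: conclusion for Lorentz spaces
-/

open MeasureTheory Set Filter Topology
open scoped ENNReal

noncomputable section

namespace Pool.Agent.MP777.Walsh

private theorem lor_ind (hMeas : S_Meas) {φ : ℝ → ℝ} (hφ : LorFun φ) (s D : ℕ) (hD : Odd D) :
    lor φ ((ER s D).indicator (fun _ => (1 : ℂ))) = ENNReal.ofReal (φ (1 / 2 ^ (s + D))) := by
  have h1 : ∀ l ∈ Ioi (0 : ℝ),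
      ENNReal.ofReal (φ (dfn ((ER s D).indicator (fun _ => (1 : ℂ))) l)) =
        (Ioo (0 : ℝ) 1).indicator (fun _ => ENNReal.ofReal (φ (1 / 2 ^ (s + D)))) l := by
    intro l hl
    rw [Set.mem_Ioi] at hl
    by_cases h : l < 1
    · rw [Set.indicator_of_mem (show l ∈ Ioo (0 : ℝ) 1 from ⟨hl, h⟩)]
      congr 2
      unfold dfn
      have h2 : {x ∈ Ioc (0 : ℝ) 1 | l < ‖(ER s D).indicator (fun _ => (1 : ℂ)) x‖} = ER s D := by
        ext x
        constructor
        · rintro ⟨_, hx⟩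
          by_contra hc
          rw [Set.indicator_of_notMem hc] at hx
          simp at hx
          linarith
        · intro hx
          refine ⟨hx.1, ?_⟩
          rw [Set.indicator_of_mem hx]
          simpa using h
      rw [h2, (hMeas s D hD).2, ENNReal.toReal_ofReal (by positivity)]
    · rw [Set.indicator_of_notMem (fun h' => h h'.2)]
      unfold dfn
      have h2 : {x ∈ Ioc (0 : ℝ) 1 | l < ‖(ER s D).indicator (fun _ => (1 : ℂ)) x‖} = ∅ := by
        ext x
        constructor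
        · rintro ⟨_, hx⟩
          exfalso
          by_cases hc : x ∈ ER s D
          · rw [Set.indicator_of_mem hc] at hx
            simp at hx
            exact h hx
          · rw [Set.indicator_of_notMem hc] at hx
            simp at hx
            linarith
        · intro hx
          exact absurd hx (Set.notMem_empty x)
      rw [h2]
      simp [hφ.zero]
  unfold lor
  rw [setLIntegral_congr_fun measurableSet_Ioi h1, lintegral_indicator measurableSet_Ioo,
    Measure.restrict_restrict measurableSet_Ioo]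
  have h3 : Ioo (0 : ℝ) 1 ∩ Ioi 0 = Ioo 0 1 := by
    ext x
    constructor
    · exact fun h => h.1
    · exact fun h => ⟨h, h.1⟩
  rw [h3]
  simp

private theorem key (hGain : S_Gain) (hKhin : S_Khin) (hMeas : S_Meas) (hMain : S_Main)
    {φ : ℝ → ℝ} (hφ : LorFun φ) {c : ℝ} (hc : 0 < c)
    (h : ∀ f : ℝ → ℂ, Measurable f → (∃ B : ℝ, ∀ x, ‖f x‖ ≤ B) →
      WL1 f ≤ ENNReal.ofReal c * lor φ f) (D : ℕ) (hD : Odd D) (hD2 : 209 ≤ D) :
    5 / 72 * (D * Real.sqrt D) / 2 ^ (2 * D) ≤ c * φ (1 / 2 ^ (2 * D)) := by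
  have h1 := h ((ER D D).indicator (fun _ => (1 : ℂ)))
    (measurable_const.indicator (hMeas D D hD).1)
    ⟨1, fun x => by
      by_cases hx : x ∈ ER D D
      · rw [Set.indicator_of_mem hx]; simp
      · rw [Set.indicator_of_notMem hx]; simp⟩
  rw [lor_ind hMeas hφ D D hD] at h1
  have h2 := le_trans (hMain D D hD) h1
  have h0 : (0 : ℝ) ≤ φ (1 / 2 ^ (D + D)) := by
    have : φ 0 ≤ φ (1 / 2 ^ (D + D)) := by
      refine hφ.mono ⟨le_rfl, zero_le_one⟩ ⟨by positivity, ?_⟩ (by positivity)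
      rw [div_le_one (by positivity)]
      exact one_le_pow₀ (by norm_num)
    rwa [hφ.zero] at this
  rw [← ENNReal.ofReal_mul hc.le, ENNReal.ofReal_le_ofReal_iff (by positivity)] at h2
  have h3 : 2 * D = D + D := by ring
  rw [h3]
  refine le_trans ?_ h2
  refine div_le_div_of_nonneg_right ?_ (by positivity)
  have h4 := hGain D hD
  have h5 := hKhin D
  have h6 : (72 : ℝ) / 5 ≤ Real.sqrt D := by
    refine Real.le_sqrt_of_sq_le ?_
    have : (209 : ℝ) ≤ D := by exact_mod_cast hD2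
    nlinarith
  have h7 : 5 / 72 * Real.sqrt D ≤ 2 * gn D - 1 := by linarith
  have h8 : (0 : ℝ) ≤ D := Nat.cast_nonneg D
  nlinarith

private theorem log_bound {t : ℝ} {D : ℕ} (ht : 0 < t) (h1 : 1 / (2 : ℝ) ^ (2 * D) ≤ t)
    (hD : (1 : ℝ) ≤ D) : Real.log (Real.exp 1 / t) ≤ 3 * D := by
  have h5 : Real.exp 1 / t ≤ Real.exp 1 * 2 ^ (2 * D) := by
    rw [div_le_iff₀ ht]
    have h6 : 1 ≤ 2 ^ (2 * D) * t := by
      rw [div_le_iff₀ (by positivity)] at h1
      linarith
    have := Real.exp_pos 1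
    nlinarith
  have h6 := Real.log_le_log (by positivity) h5
  rw [Real.log_mul (by positivity) (by positivity), Real.log_exp, Real.log_pow] at h6
  have h7 := Real.log_two_lt_d9
  push_cast at h6
  nlinarith

theorem pFin (hGain : S_Gain) (hKhin : S_Khin) (hMeas : S_Meas) (hMain : S_Main) : S_Fin := by
  have hA : ∀ φ : ℝ → ℝ, LorFun φ → AdmW φ → ∃ c : ℝ, 0 < c ∧ ∀ t : ℝ, 0 < t → t ≤ 1 →
      c * (t * Real.log (Real.exp 1 / t) ^ (3 / 2 : ℝ)) ≤ φ t := by
    rintro φ hφ ⟨c, hc, h⟩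
    obtain ⟨e, he⟩ : ∃ e : ℕ, e = 418 := ⟨_, rfl⟩
    refine ⟨5 / 72 / (2 ^ e * c * 3 ^ (3 / 2 : ℝ)), by positivity, fun t ht ht1 => ?_⟩
    have hex : ∃ n : ℕ, 1 / (2 : ℝ) ^ (2 * (2 * n + 209)) ≤ t := by
      obtain ⟨n, hn⟩ := exists_pow_lt_of_lt_one ht (show (1 / 2 : ℝ) < 1 by norm_num)
      refine ⟨n, le_trans ?_ hn.le⟩
      rw [one_div_pow]
      exact one_div_le_one_div_of_le (by positivity) (pow_le_pow_right₀ (by norm_num) (by omega))
    classical
    set n := Nat.find hex with hn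
    have h1 : 1 / (2 : ℝ) ^ (2 * (2 * n + 209)) ≤ t := Nat.find_spec hex
    have h2 : t ≤ 2 ^ e * (1 / (2 : ℝ) ^ (2 * (2 * n + 209))) := by
      by_cases h0 : n = 0
      · have h3 : 2 * (2 * n + 209) = e := by omega
        rw [h3, mul_one_div, div_self (by positivity)]
        exact ht1
      · have h3 := Nat.find_min hex (show n - 1 < Nat.find hex by omega)
        rw [not_le] at h3
        refine le_trans h3.le ?_
        rw [mul_one_div, div_le_div_iff₀ (by positivity) (by positivity), one_mul, ← pow_add]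
        exact pow_le_pow_right₀ (by norm_num) (by omega)
    set D := 2 * n + 209 with hDdef
    have hD : Odd D := ⟨n + 104, by omega⟩
    have hDr : (209 : ℝ) ≤ D := by
      have : 209 ≤ D := by omega
      exact_mod_cast this
    have h3 := key hGain hKhin hMeas hMain hφ hc h D hD (by omega)
    have h4 : φ (1 / 2 ^ (2 * D)) ≤ φ t := by
      refine hφ.mono ⟨by positivity, ?_⟩ ⟨ht.le, ht1⟩ h1
      exact le_trans h1 ht1
    have hlog0 : 0 ≤ Real.log (Real.exp 1 / t) := by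
      refine Real.log_nonneg ?_
      rw [le_div_iff₀ ht]
      have := Real.add_one_le_exp 1
      linarith
    have hlog : Real.log (Real.exp 1 / t) ≤ 3 * D := log_bound ht h1 (by linarith)
    have hpow : Real.log (Real.exp 1 / t) ^ (3 / 2 : ℝ) ≤ 3 ^ (3 / 2 : ℝ) * (D * Real.sqrt D) := by
      refine le_trans (Real.rpow_le_rpow hlog0 hlog (by norm_num)) ?_
      rw [Real.mul_rpow (by norm_num) (by positivity)]
      have h8 : (D : ℝ) ^ (3 / 2 : ℝ) = D * Real.sqrt D := by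
        rw [Real.sqrt_eq_rpow, show (3 / 2 : ℝ) = 1 + 1 / 2 by norm_num,
          Real.rpow_add (by positivity), Real.rpow_one]
      rw [h8]
    have h9 : (0 : ℝ) < 3 ^ (3 / 2 : ℝ) := by positivity
    have h10 : t * Real.log (Real.exp 1 / t) ^ (3 / 2 : ℝ) ≤
        (2 ^ e * (1 / (2 : ℝ) ^ (2 * D))) * (3 ^ (3 / 2 : ℝ) * (D * Real.sqrt D)) :=
      mul_le_mul h2 hpow (Real.rpow_nonneg hlog0 _) (by positivity)
    have h11 : 5 / 72 / (2 ^ e * c * 3 ^ (3 / 2 : ℝ)) *
        (t * Real.log (Real.exp 1 / t) ^ (3 / 2 : ℝ)) ≤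
        5 / 72 / (2 ^ e * c * 3 ^ (3 / 2 : ℝ)) *
        ((2 ^ e * (1 / (2 : ℝ) ^ (2 * D))) * (3 ^ (3 / 2 : ℝ) * (D * Real.sqrt D))) :=
      mul_le_mul_of_nonneg_left h10 (by positivity)
    refine le_trans h11 (le_trans ?_ h4)
    have h12 : 5 / 72 / (2 ^ e * c * 3 ^ (3 / 2 : ℝ)) *
        ((2 ^ e * (1 / (2 : ℝ) ^ (2 * D))) * (3 ^ (3 / 2 : ℝ) * (D * Real.sqrt D))) =
        (5 / 72 * (D * Real.sqrt D) / 2 ^ (2 * D)) / c := by
      have h13 : (3 : ℝ) ^ (3 / 2 : ℝ) ≠ 0 := h9.ne'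
      have h14 : (2 : ℝ) ^ e ≠ 0 := by positivity
      have h15 : (2 : ℝ) ^ (2 * D) ≠ 0 := by positivity
      clear_value n D
      generalize (3 : ℝ) ^ (3 / 2 : ℝ) = q at h13
      generalize (2 : ℝ) ^ e = K at h14
      generalize (2 : ℝ) ^ (2 * D) = L at h15
      generalize (D * Real.sqrt D : ℝ) = r
      field_simp
    rw [h12, div_le_iff₀ hc]
    linarith
  refine ⟨hA, fun hadm => ?_⟩
  obtain ⟨c, hc, h⟩ := hA phi1 PhiAux.lor hadm
  -- take `t = exp (1 - M)` with `c √M > 1`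
  obtain ⟨M, hM⟩ := exists_nat_gt (1 / c ^ 2 + 1)
  have hM1 : (1 : ℝ) < M := by
    have : 0 < 1 / c ^ 2 := by positivity
    linarith
  have ht := h (Real.exp (1 - M)) (Real.exp_pos _) (Real.exp_le_one_iff.2 (by linarith))
  unfold phi1 at ht
  have h1 : Real.exp 1 / Real.exp (1 - M) = Real.exp M := by
    rw [← Real.exp_sub]
    congr 1
    ring
  rw [h1, Real.log_exp] at ht
  have h2 : (M : ℝ) ^ (3 / 2 : ℝ) = M * Real.sqrt M := by
    rw [Real.sqrt_eq_rpow, show (3 / 2 : ℝ) = 1 + 1 / 2 by norm_num,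
      Real.rpow_add (by linarith), Real.rpow_one]
  rw [h2] at ht
  have h3 : 0 < Real.exp (1 - (M : ℝ)) := Real.exp_pos _
  have h4 : c * Real.sqrt M ≤ 1 := by
    have h5 : 0 < Real.exp (1 - (M : ℝ)) * M := by positivity
    have h6 : c * Real.sqrt M * (Real.exp (1 - (M : ℝ)) * M) ≤
        1 * (Real.exp (1 - (M : ℝ)) * M) := by linarith
    exact le_of_mul_le_mul_right h6 h5
  have h5 : c ^ 2 * M ≤ 1 := by
    have h6 : (c * Real.sqrt M) ^ 2 ≤ 1 := by
      have : 0 ≤ c * Real.sqrt M := by positivity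
      nlinarith
    rw [mul_pow, Real.sq_sqrt (by linarith)] at h6
    exact h6
  have h6 : 1 / c ^ 2 < M := by linarith
  rw [div_lt_iff₀ (by positivity)] at h6
  linarith

end Pool.Agent.MP777.Walsh
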