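import Pool.Agent.Lib.MP_777af9_an.Walsh.Spec

/-!
# MP_777af9_an: the Walsh model, module Gain
-/

open MeasureTheory Set Filter Topology
open scoped ENNReal

noncomputable section

namespace Pool.Agent.MP777.Walsh

private theorem sg_not (b : Bool) : sg (!b) = -sg b := by cases b <;> simp [sg]

private theorem sg_sq (b : Bool) : sg b * sg b = 1 := by cases b <;> simp [sg]

private theorem sg_ne (b c : Bool) (h : b ≠ c) : sg b * sg c = -1 := by
  cases b <;> cases c <;> simp_all [sg]

private theorem sg_le (b c : Bool) : 0 ≤ 1 + sg b * sg c := by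
  by_cases h : b = c
  · rw [h, sg_sq]; norm_num
  · rw [sg_ne b c h]; norm_num

/-- All digits flipped. -/
private def fl {D : ℕ} (y : Cu D) : Cu D := fun q => !y q

/-- The digit `k` flipped. -/
private def fk {D : ℕ} (k : Fin D) (y : Cu D) : Cu D := Function.update y k (!y k)

private theorem fl_fl {D : ℕ} : Function.Involutive (fl : Cu D → Cu D) := by
  intro y
  funext q
  simp [fl]

private theorem fk_fk {D : ℕ} (k : Fin D) : Function.Involutive (fk k : Cu D → Cu D) := by
  intro y
  funext q
  by_cases h : q = k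
  · subst h
    simp [fk]
  · simp [fk, h]

private theorem sum_fl {D : ℕ} (F : Cu D → ℝ) : ∑ y, F (fl y) = ∑ y, F y :=
  Equiv.sum_comp (Function.Involutive.toPerm fl fl_fl) F

private theorem sum_fk {D : ℕ} (k : Fin D) (F : Cu D → ℝ) : ∑ y, F (fk k y) = ∑ y, F y :=
  Equiv.sum_comp (Function.Involutive.toPerm (fk k) (fk_fk k)) F

/-- Sum of the signs. -/
private def S {D : ℕ} (y : Cu D) : ℝ := ∑ k, sg (y k)

private theorem S_fl {D : ℕ} (y : Cu D) : S (fl y) = -S y := by
  unfold S
  rw [← Finset.sum_neg_distrib]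
  exact Finset.sum_congr rfl (fun k _ => sg_not (y k))

private theorem S_fk {D : ℕ} (k : Fin D) (y : Cu D) : S (fk k y) = S y - 2 * sg (y k) := by
  unfold S
  rw [← Finset.add_sum_erase _ _ (Finset.mem_univ k), ← Finset.add_sum_erase Finset.univ
    (fun i => sg (y i)) (Finset.mem_univ k)]
  have h : ∑ x ∈ Finset.univ.erase k, sg (fk k y x) = ∑ x ∈ Finset.univ.erase k, sg (y x) := by
    apply Finset.sum_congr rfl
    intro q hq
    have : q ≠ k := Finset.ne_of_mem_erase hq
    simp [fk, this]
  rw [h]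
  have h2 : sg (fk k y k) = -sg (y k) := by
    rw [← sg_not]
    simp [fk]
  rw [h2]
  ring

private theorem S_ne {D : ℕ} (hD : Odd D) (y : Cu D) : S y ≠ 0 := by
  have h : ∀ b : Bool, sg b = 1 - 2 * ((if b then 1 else 0 : ℕ) : ℝ) := by
    intro b
    cases b <;> simp [sg] <;> norm_num
  intro h0
  unfold S at h0
  rw [Finset.sum_congr rfl (fun k _ => h (y k)), Finset.sum_sub_distrib, ← Finset.mul_sum,
    Finset.sum_const, Finset.card_univ, Fintype.card_fin, nsmul_eq_mul, mul_one,
    ← Nat.cast_sum] at h0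
  have h1 : (D : ℝ) = ((2 * ∑ k : Fin D, (if y k then 1 else 0 : ℕ) : ℕ) : ℝ) := by
    push_cast
    push_cast at h0
    linarith
  have h2 : D = 2 * ∑ k : Fin D, (if y k then 1 else 0 : ℕ) := by exact_mod_cast h1
  obtain ⟨m, hm⟩ := hD
  omega

private theorem Mj_iff {D : ℕ} (y : Cu D) : Mj y ↔ 0 < S y := Iff.rfl

private theorem Mj_fl {D : ℕ} (hD : Odd D) (y : Cu D) : Mj (fl y) ↔ ¬ Mj y := by
  rw [Mj_iff, Mj_iff, S_fl]
  have := S_ne hD y
  constructor
  · intro h; linarith
  · intro h
    rcases lt_or_gt_of_ne this with h' | h'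
    · linarith
    · exact absurd h' h

/-- The product. -/
private def P {D : ℕ} (k : Fin D) (y ω : Cu D) : ℝ :=
  ∏ q ∈ Finset.univ.filter (fun q => q < k), (1 + sg (y q) * sg (ω q))

private theorem P_nonneg {D : ℕ} (k : Fin D) (y ω : Cu D) : 0 ≤ P k y ω :=
  Finset.prod_nonneg (fun q _ => sg_le _ _)

private theorem P_fk {D : ℕ} (k : Fin D) (y ω : Cu D) : P k y (fk k ω) = P k y ω := by
  apply Finset.prod_congr rfl
  intro q hq
  have : q ≠ k := ne_of_lt (Finset.mem_filter.mp hq).2
  simp [fk, this]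

private theorem P_fl {D : ℕ} (k : Fin D) (y ω : Cu D) : P k (fl y) (fl ω) = P k y ω := by
  apply Finset.prod_congr rfl
  intro q _
  have : sg (fl y q) * sg (fl ω q) = sg (y q) * sg (ω q) := by
    unfold fl
    rw [sg_not, sg_not]
    ring
  rw [this]

private def c {D : ℕ} (k : Fin D) (y : Cu D) : ℝ :=
  (∑ ω : Cu D, if Mj ω then sg (ω k) * P k y ω else 0) / 2 ^ D

private theorem kap_eq {D : ℕ} (k : Fin D) (y : Cu D) : kap k y = sg (y k) * c k y := by
  unfold kap c
  rw [← mul_div_assoc, Finset.mul_sum]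
  congr 1
  apply Finset.sum_congr rfl
  intro ω _
  by_cases h : Mj ω
  · rw [if_pos h, if_pos h, mul_assoc]
    rfl
  · rw [if_neg h, if_neg h, mul_zero]

private theorem c_nonneg {D : ℕ} (k : Fin D) (y : Cu D) : 0 ≤ c k y := by
  unfold c
  apply div_nonneg _ (by positivity)
  have h := sum_fk k (fun ω => if Mj ω then sg (ω k) * P k y ω else 0)
  have h2 : 0 ≤ ∑ ω : Cu D, ((if Mj ω then sg (ω k) * P k y ω else 0) +
      (if Mj (fk k ω) then sg (fk k ω k) * P k y (fk k ω) else 0)) := by
    apply Finset.sum_nonneg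
    intro ω _
    have e : sg (fk k ω k) = -sg (ω k) := by
      rw [← sg_not]
      simp [fk]
    have hP := P_nonneg k y ω
    have hS := S_fk k ω
    rw [P_fk, e]
    by_cases hb : ω k = true
    · have hs : sg (ω k) = -1 := by rw [hb]; simp [sg]
      rw [hs] at hS ⊢
      by_cases hm : Mj ω
      · have hm2 : Mj (fk k ω) := by
          rw [Mj_iff] at hm ⊢
          linarith
        rw [if_pos hm, if_pos hm2]
        linarith
      · rw [if_neg hm]
        by_cases hm2 : Mj (fk k ω)
        · rw [if_pos hm2]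
          linarith
        · rw [if_neg hm2]
          linarith
    · have hs : sg (ω k) = 1 := by simp [sg, hb]
      rw [hs] at hS ⊢
      by_cases hm2 : Mj (fk k ω)
      · have hm : Mj ω := by
          rw [Mj_iff] at hm2 ⊢
          linarith
        rw [if_pos hm, if_pos hm2]
        linarith
      · rw [if_neg hm2]
        by_cases hm : Mj ω
        · rw [if_pos hm]
          linarith
        · rw [if_neg hm]
          linarith
  rw [Finset.sum_add_distrib, h] at h2
  linarith

private theorem sum_zero {D : ℕ} (k : Fin D) (y : Cu D) :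
    ∑ ω : Cu D, sg (ω k) * P k y ω = 0 := by
  have h := sum_fk k (fun ω => sg (ω k) * P k y ω)
  have h2 : ∑ ω : Cu D, sg (fk k ω k) * P k y (fk k ω) = -∑ ω : Cu D, sg (ω k) * P k y ω := by
    rw [← Finset.sum_neg_distrib]
    apply Finset.sum_congr rfl
    intro ω _
    have e : sg (fk k ω k) = -sg (ω k) := by
      rw [← sg_not]
      simp [fk]
    rw [P_fk, e]
    ring
  rw [h2] at h
  linarith

private theorem c_fl {D : ℕ} (hD : Odd D) (k : Fin D) (y : Cu D) : c k (fl y) = c k y := by
  unfold c
  congr 1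
  rw [← sum_fl (fun ω => if Mj ω then sg (ω k) * P k (fl y) ω else 0)]
  have h : ∀ ω : Cu D, (if Mj (fl ω) then sg (fl ω k) * P k (fl y) (fl ω) else 0) =
      (if Mj ω then sg (ω k) * P k y ω else 0) - sg (ω k) * P k y ω := by
    intro ω
    have e : sg (fl ω k) = -sg (ω k) := sg_not _
    rw [P_fl, e]
    by_cases hm : Mj ω
    · rw [if_neg (fun h => (Mj_fl hD ω).mp h hm), if_pos hm]
      ring
    · rw [if_pos ((Mj_fl hD ω).mpr hm), if_neg hm]
      ring
  rw [Finset.sum_congr rfl (fun ω _ => h ω), Finset.sum_sub_distrib, sum_zero, sub_zero]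

private theorem prod_all {D : ℕ} (y ω : Cu D) :
    ∏ q, (1 + sg (y q) * sg (ω q)) = if ω = y then (2 : ℝ) ^ D else 0 := by
  by_cases h : ω = y
  · rw [if_pos h, h]
    rw [Finset.prod_congr rfl (fun q _ => by rw [sg_sq] : ∀ q ∈ Finset.univ,
      1 + sg (y q) * sg (y q) = 1 + 1), Finset.prod_const, Finset.card_univ, Fintype.card_fin]
    norm_num
  · rw [if_neg h]
    obtain ⟨q, hq⟩ := Function.ne_iff.mp h
    apply Finset.prod_eq_zero (Finset.mem_univ q)
    rw [sg_ne _ _ (Ne.symm hq)]
    norm_num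

private theorem sum_kap (h1 : S_Half) {D : ℕ} (hD : Odd D) (y : Cu D) (hy : ¬ Mj y) :
    ∑ k, kap k y = -(1 / 2) := by
  unfold kap
  rw [← Finset.sum_div, Finset.sum_comm]
  have h : ∀ ω : Cu D, (∑ k : Fin D, if Mj ω then
      sg (y k) * sg (ω k) * ∏ q ∈ Finset.univ.filter (fun q => q < k), (1 + sg (y q) * sg (ω q))
      else 0) = if Mj ω then -1 else 0 := by
    intro ω
    by_cases hm : Mj ω
    · simp only [if_pos hm]
      have e := Finset.prod_one_add_ordered Finset.univ (fun q : Fin D => sg (y q) * sg (ω q))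
      have hne : ω ≠ y := by
        intro h
        rw [h] at hm
        exact hy hm
      rw [prod_all, if_neg hne] at e
      linarith
    · simp only [if_neg hm, Finset.sum_const_zero]
  rw [Finset.sum_congr rfl (fun ω _ => h ω), ← Finset.sum_filter, Finset.sum_const, h1 D hD]
  obtain ⟨m, hm⟩ := hD
  have e : D = D - 1 + 1 := by omega
  rw [nsmul_eq_mul, Nat.cast_pow, Nat.cast_ofNat]
  conv_lhs => rw [e]
  rw [pow_succ, Nat.add_sub_cancel]
  field_simp

private theorem sum_P {D : ℕ} (k : Fin D) (ω : Cu D) : ∑ y : Cu D, P k y ω = 2 ^ D := by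
  have h : ∀ y : Cu D, P k y ω = ∏ q, if q < k then 1 + sg (y q) * sg (ω q) else 1 := by
    intro y
    unfold P
    rw [Finset.prod_filter]
  rw [Finset.sum_congr rfl (fun y _ => h y)]
  have h2 := Finset.prod_univ_sum (fun _ : Fin D => (Finset.univ : Finset Bool))
    (fun q b => if q < k then 1 + sg b * sg (ω q) else 1)
  rw [Fintype.piFinset_univ] at h2
  rw [← h2]
  have h3 : ∀ q ∈ (Finset.univ : Finset (Fin D)),
      (∑ b : Bool, if q < k then 1 + sg b * sg (ω q) else 1) = 2 := by
    intro q _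
    rw [Fintype.sum_bool]
    by_cases hq : q < k
    · rw [if_pos hq, if_pos hq]
      have h1 : sg true = -1 := by simp [sg]
      have h2 : sg false = 1 := by simp [sg]
      rw [h1, h2]
      ring
    · rw [if_neg hq, if_neg hq]
      norm_num
  rw [Finset.prod_congr rfl h3, Finset.prod_const, Finset.card_univ, Fintype.card_fin]

private theorem half_sum {D : ℕ} (hD : Odd D) (g : Cu D → ℝ) (hg : ∀ y, g (fl y) = g y) :
    (∑ y : Cu D, if Mj y then 0 else g y) = (∑ y, g y) / 2 ∧
    (∑ y : Cu D, if Mj y then g y else 0) = (∑ y, g y) / 2 := by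
  have e1 : (∑ y : Cu D, if Mj y then 0 else g y) = ∑ y : Cu D, if Mj y then g y else 0 := by
    rw [← sum_fl (fun y => if Mj y then 0 else g y)]
    apply Finset.sum_congr rfl
    intro y _
    rw [hg]
    by_cases hm : Mj y
    · rw [if_neg (fun h => (Mj_fl hD y).mp h hm), if_pos hm]
    · rw [if_pos ((Mj_fl hD y).mpr hm), if_neg hm]
  have e2 : (∑ y : Cu D, if Mj y then 0 else g y) + (∑ y : Cu D, if Mj y then g y else 0) =
      ∑ y, g y := by
    rw [← Finset.sum_add_distrib]
    apply Finset.sum_congr rfl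
    intro y _
    by_cases hm : Mj y
    · rw [if_pos hm, if_pos hm, zero_add]
    · rw [if_neg hm, if_neg hm, add_zero]
  constructor <;> linarith

private theorem sum_c {D : ℕ} (hD : Odd D) :
    ∑ y : Cu D, ∑ k : Fin D, c k y = (∑ y : Cu D, |∑ k, sg (y k)|) / 2 := by
  have e1 : ∀ k : Fin D, ∑ y : Cu D, c k y = ∑ ω : Cu D, if Mj ω then sg (ω k) else 0 := by
    intro k
    unfold c
    rw [← Finset.sum_div, Finset.sum_comm, Finset.sum_div]
    apply Finset.sum_congr rfl
    intro ω _
    by_cases hm : Mj ω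
    · simp only [if_pos hm]
      rw [← Finset.mul_sum, sum_P]
      field_simp
    · simp only [if_neg hm, Finset.sum_const_zero, zero_div]
  rw [Finset.sum_comm, Finset.sum_congr rfl (fun k _ => e1 k), Finset.sum_comm]
  have e2 := (half_sum hD (fun y : Cu D => |∑ k, sg (y k)|) (fun y => by
    have := S_fl y
    unfold S at this
    show |∑ k, sg (fl y k)| = |∑ k, sg (y k)|
    rw [this, abs_neg])).2
  rw [← e2]
  apply Finset.sum_congr rfl
  intro ω _
  by_cases hm : Mj ω
  · simp only [if_pos hm]
    have : 0 < ∑ k, sg (ω k) := hm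
    rw [abs_of_pos this]
  · simp only [if_neg hm, Finset.sum_const_zero]

theorem pGain (h1 : S_Half) : S_Gain := by
  intro D hD
  have e1 : ∀ y : Cu D, (if Mj y then 0 else (∑ k : Fin D, c k y) / 2) ≤
      if Mj y then 0 else |∑ k : Fin D, if y k then kap k y else 0| := by
    intro y
    by_cases hm : Mj y
    · rw [if_pos hm, if_pos hm]
    · rw [if_neg hm, if_neg hm]
      have a1 : (∑ k : Fin D, if y k then kap k y else 0) =
          -∑ k : Fin D, if y k then c k y else 0 := by
        rw [← Finset.sum_neg_distrib]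
        apply Finset.sum_congr rfl
        intro k _
        by_cases hk : y k = true
        · rw [if_pos hk, if_pos hk, kap_eq, hk]
          simp [sg]
        · rw [if_neg hk, if_neg hk, neg_zero]
      have a2 : ∑ k, kap k y = (∑ k : Fin D, c k y) -
          2 * ∑ k : Fin D, if y k then c k y else 0 := by
        rw [Finset.mul_sum, ← Finset.sum_sub_distrib]
        apply Finset.sum_congr rfl
        intro k _
        by_cases hk : y k = true
        · rw [if_pos hk, kap_eq, hk]
          simp only [sg, if_true]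
          ring
        · rw [if_neg hk, kap_eq]
          simp [sg, hk]
      have a3 := sum_kap h1 hD y hm
      rw [a1, abs_neg]
      refine le_trans ?_ (le_abs_self _)
      linarith
  have e2 := Finset.sum_le_sum (fun y (_ : y ∈ (Finset.univ : Finset (Cu D))) => e1 y)
  have e3 := (half_sum hD (fun y : Cu D => (∑ k : Fin D, c k y) / 2) (fun y => by
    show (∑ k : Fin D, c k (fl y)) / 2 = (∑ k : Fin D, c k y) / 2
    rw [Finset.sum_congr rfl (fun k _ => c_fl hD k y)])).1
  rw [e3, ← Finset.sum_div, sum_c hD] at e2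
  unfold A1 gn
  have hp : (0 : ℝ) < 2 ^ D := by positivity
  rw [div_div, div_le_div_iff₀ (by positivity) hp]
  have := mul_le_mul_of_nonneg_right e2 hp.le
  nlinarith

end Pool.Agent.MP777.Walsh
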