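import Pool.Agent.Lib.MP_777af9_an.Walsh.Spec

/-!
# MP_777af9_an, Walsh model: half of the cube has a positive majority
-/

open MeasureTheory Set Filter Topology
open scoped ENNReal

noncomputable section

namespace Pool.Agent.MP777.Walsh

/-- All bits flipped. -/
def flipAll {D : ℕ} : Cu D ≃ Cu D where
  toFun y := fun k => !(y k)
  invFun y := fun k => !(y k)
  left_inv y := by funext k; simp
  right_inv y := by funext k; simp

theorem sg_not (b : Bool) : sg (!b) = -sg b := by cases b <;> simp [sg]

theorem sum_flipAll {D : ℕ} (y : Cu D) : ∑ k, sg (flipAll y k) = -∑ k, sg (y k) := by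
  rw [← Finset.sum_neg_distrib]
  exact Finset.sum_congr rfl fun k _ => sg_not (y k)

/-- The sum of an odd number of signs is not zero. -/
theorem sum_sg_ne_zero {D : ℕ} (hD : Odd D) (y : Cu D) : ∑ k, sg (y k) ≠ 0 := by
  have h1 : ∑ k, sg (y k) =
      (((D : ℤ) - 2 * ((Finset.univ.filter (fun k => y k = true)).card : ℤ) : ℤ) : ℝ) := by
    have : ∀ k, sg (y k) = 1 - 2 * (if y k = true then (1 : ℝ) else 0) := by
      intro k
      cases h : y k <;> norm_num [sg]
    rw [Finset.sum_congr rfl fun k _ => this k, Finset.sum_sub_distrib, ← Finset.mul_sum,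
      Finset.sum_boole]
    simp
  rw [h1]
  intro h
  have h2 : (D : ℤ) - 2 * ((Finset.univ.filter (fun k => y k = true)).card : ℤ) = 0 := by
    exact_mod_cast h
  obtain ⟨a, ha⟩ := hD
  omega

theorem Mj_flipAll {D : ℕ} (hD : Odd D) (y : Cu D) : Mj (flipAll y) ↔ ¬ Mj y := by
  unfold Mj
  rw [sum_flipAll]
  have := sum_sg_ne_zero hD y
  constructor
  · intro h h'
    linarith
  · intro h
    rcases lt_trichotomy (∑ k, sg (y k)) 0 with h' | h' | h'
    · linarith
    · exact absurd h' this
    · exact absurd h' h

theorem pHalf : S_Half := by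
  intro D hD
  have h1 : (Finset.univ.filter (fun y : Cu D => Mj y)).card =
      (Finset.univ.filter (fun y : Cu D => ¬ Mj y)).card := by
    refine Finset.card_equiv flipAll ?_
    intro y
    simp only [Finset.mem_filter, Finset.mem_univ, true_and]
    rw [Mj_flipAll hD, not_not]
  have h2 := Finset.card_filter_add_card_filter_not (s := (Finset.univ : Finset (Cu D)))
    (fun y : Cu D => Mj y)
  have h3 : (Finset.univ : Finset (Cu D)).card = 2 ^ D := by simp
  obtain ⟨a, ha⟩ := hD
  have h4 : 2 ^ D = 2 * 2 ^ (D - 1) := by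
    rw [← pow_succ']
    congr 1
    omega
  omega

end Pool.Agent.MP777.Walsh
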