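import Pool.Agent.Lib.MP_777af9_an.Walsh.Spec

/-!
# MP_777af9_an: the Walsh model, the digits of a uniform point are uniform
-/

open MeasureTheory Set Filter Topology
open scoped ENNReal

noncomputable section

namespace Pool.Agent.MP777.Walsh

/-- The point of the cube with number `N`. -/
private def int_g (m : ℕ) (N : Fin (2 ^ m)) : Cu m := fun p => (N : ℕ).testBit (m - 1 - p)

private theorem int_bits {m : ℕ} {x : ℝ} (N : Fin (2 ^ m)) (h : ((N : ℕ) : ℝ) ≤ 2 ^ m * x)
    (h' : 2 ^ m * x < (N : ℕ) + 1) : bits m x = int_g m N := by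
  funext p
  obtain ⟨d, hd⟩ : ∃ d, m = (p : ℕ) + 1 + d := ⟨m - (p + 1), by have := p.isLt; omega⟩
  have hd' : m - 1 - (p : ℕ) = d := by omega
  have hf : ⌊(2 : ℝ) ^ ((p : ℕ) + 1) * x⌋ = (((N : ℕ) / 2 ^ d : ℕ) : ℤ) := by
    rw [Int.floor_eq_iff]
    have e1 : (2 : ℝ) ^ m * x = 2 ^ d * (2 ^ ((p : ℕ) + 1) * x) := by
      rw [← mul_assoc, ← pow_add, add_comm d, ← hd]
    have hpos : (0 : ℝ) < 2 ^ d := by positivity
    have e2 : (N : ℕ) / 2 ^ d * 2 ^ d ≤ (N : ℕ) := Nat.div_mul_le_self _ _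
    have e3 : (N : ℕ) < ((N : ℕ) / 2 ^ d + 1) * 2 ^ d := by
      have e4 := Nat.div_add_mod (N : ℕ) (2 ^ d)
      have e5 := Nat.mod_lt (N : ℕ) (Nat.two_pow_pos d)
      rw [mul_comm] at e4
      rw [add_mul, one_mul]
      omega
    constructor
    · have e4 : (((N : ℕ) / 2 ^ d : ℕ) : ℝ) * 2 ^ d ≤ ((N : ℕ) : ℝ) := by exact_mod_cast e2
      rw [e1] at h
      have e5 : 2 ^ d * ((((N : ℕ) / 2 ^ d : ℕ) : ℤ) : ℝ) ≤ 2 ^ d * (2 ^ ((p : ℕ) + 1) * x) := by
        refine le_trans ?_ h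
        rw [mul_comm]
        exact_mod_cast e4
      exact le_of_mul_le_mul_left e5 hpos
    · have e4 : ((N : ℕ) : ℝ) + 1 ≤ ((((N : ℕ) / 2 ^ d : ℕ) : ℝ) + 1) * 2 ^ d := by
        exact_mod_cast e3
      rw [e1] at h'
      have e5 : 2 ^ d * (2 ^ ((p : ℕ) + 1) * x) <
          2 ^ d * (((((N : ℕ) / 2 ^ d : ℕ) : ℤ) : ℝ) + 1) := by
        refine lt_of_lt_of_le h' ?_
        rw [mul_comm ((2 : ℝ) ^ d)]
        exact_mod_cast e4
      exact lt_of_mul_lt_mul_left e5 hpos.le
  show decide (¬ Even ⌊(2 : ℝ) ^ ((p : ℕ) + 1) * x⌋) = (N : ℕ).testBit (m - 1 - p)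
  rw [hf, hd', Nat.testBit_eq_decide_div_mod_eq]
  congr 1
  rw [Int.even_coe_nat, Nat.not_even_iff]

private theorem int_g_bij (m : ℕ) : Function.Bijective (int_g m) := by
  rw [Fintype.bijective_iff_injective_and_card]
  refine ⟨fun N N' h => ?_, by simp⟩
  refine Fin.ext (Nat.eq_of_testBit_eq fun i => ?_)
  by_cases hi : i < m
  · have h1 := congrFun h ⟨m - 1 - i, by omega⟩
    have h2 : m - 1 - (m - 1 - i) = i := by omega
    unfold int_g at h1
    simp only [h2] at h1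
    exact h1
  · push Not at hi
    have h1 : 2 ^ m ≤ 2 ^ i := Nat.pow_le_pow_right (by norm_num) hi
    rw [Nat.testBit_lt_two_pow (lt_of_lt_of_le N.isLt h1),
      Nat.testBit_lt_two_pow (lt_of_lt_of_le N'.isLt h1)]

private theorem int_meas (m : ℕ) : Measurable (bits m) := by
  refine measurable_pi_iff.2 fun p => ?_
  exact (measurable_from_top (f := fun z : ℤ => decide (¬ Even z))).comp
    (Int.measurable_floor.comp (measurable_const_mul _))

private theorem int_level (m : ℕ) (ω : Cu m) :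
    (volume.restrict (Ioc (0 : ℝ) 1)).map (bits m) {ω} = (2 ^ m)⁻¹ := by
  obtain ⟨N, rfl⟩ := (int_g_bij m).2 ω
  rw [Measure.map_apply (int_meas m) (measurableSet_singleton _),
    Measure.restrict_apply ((int_meas m) (measurableSet_singleton _))]
  have hpos : (0 : ℝ) < 2 ^ m := by positivity
  have hlen : ENNReal.ofReal (((N : ℕ) + 1 : ℝ) / 2 ^ m - (N : ℕ) / 2 ^ m) = (2 ^ m)⁻¹ := by
    have e1 : ((N : ℕ) + 1 : ℝ) / 2 ^ m - (N : ℕ) / 2 ^ m = (2 ^ m)⁻¹ := by
      field_simp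
      ring
    rw [e1, ENNReal.ofReal_inv_of_pos hpos, ENNReal.ofReal_pow (by norm_num)]
    norm_num
  have hN : ((N : ℕ) : ℝ) + 1 ≤ 2 ^ m := by
    have := N.isLt
    exact_mod_cast this
  refine le_antisymm ?_ ?_
  · calc volume (bits m ⁻¹' {int_g m N} ∩ Ioc (0 : ℝ) 1)
        ≤ volume (Icc (((N : ℕ) : ℝ) / 2 ^ m) (((N : ℕ) + 1 : ℝ) / 2 ^ m) ∪ {1}) := by
          refine measure_mono ?_
          rintro x ⟨hx, hx0, hx1⟩
          rcases eq_or_lt_of_le hx1 with h1 | h1
          · exact Or.inr h1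
          left
          have hx2 : (0 : ℝ) ≤ 2 ^ m * x := by positivity
          have hfl := Nat.floor_le hx2
          have hlt := Nat.lt_floor_add_one ((2 : ℝ) ^ m * x)
          have hlt2 : ⌊(2 : ℝ) ^ m * x⌋₊ < 2 ^ m := by
            rw [Nat.floor_lt hx2]
            push_cast
            calc (2 : ℝ) ^ m * x < 2 ^ m * 1 := by
                  exact mul_lt_mul_of_pos_left h1 hpos
              _ = 2 ^ m := mul_one _
          have h2 := int_bits (m := m) (x := x) ⟨⌊(2 : ℝ) ^ m * x⌋₊, hlt2⟩ hfl hlt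
          have h3 : int_g m ⟨⌊(2 : ℝ) ^ m * x⌋₊, hlt2⟩ = int_g m N := h2.symm.trans hx
          have h4 := congrArg Fin.val ((int_g_bij m).1 h3)
          simp only at h4
          rw [h4] at hfl hlt
          constructor
          · rw [div_le_iff₀ hpos, mul_comm]
            exact hfl
          · rw [le_div_iff₀ hpos, mul_comm]
            exact hlt.le
      _ ≤ volume (Icc (((N : ℕ) : ℝ) / 2 ^ m) (((N : ℕ) + 1 : ℝ) / 2 ^ m)) + volume {(1 : ℝ)} :=
          measure_union_le _ _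
      _ = (2 ^ m)⁻¹ := by
          rw [Real.volume_Icc, hlen, Real.volume_singleton, add_zero]
  · rw [← hlen, ← Real.volume_Ioo]
    refine measure_mono ?_
    rintro x ⟨hx1, hx2⟩
    rw [div_lt_iff₀ hpos, mul_comm] at hx1
    rw [lt_div_iff₀ hpos, mul_comm] at hx2
    refine ⟨int_bits N hx1.le hx2, ?_, ?_⟩
    · by_contra hcon
      push Not at hcon
      have : (2 : ℝ) ^ m * x ≤ 0 := mul_nonpos_of_nonneg_of_nonpos hpos.le hcon
      have h0 : (0 : ℝ) ≤ ((N : ℕ) : ℝ) := Nat.cast_nonneg _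
      linarith
    · by_contra hcon
      push Not at hcon
      have : (2 : ℝ) ^ m * 1 < 2 ^ m * x := mul_lt_mul_of_pos_left hcon hpos
      linarith

theorem pInt : S_Int := by
  intro m
  refine ⟨int_meas m, fun F => ?_, fun F => ?_⟩
  · have h1 : ∫⁻ x in Ioc (0 : ℝ) 1, F (bits m x) =
        ∫⁻ ω, F ω ∂((volume.restrict (Ioc (0 : ℝ) 1)).map (bits m)) :=
      (lintegral_map (measurable_of_finite F) (int_meas m)).symm
    rw [h1, lintegral_fintype]
    simp only [int_level]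
    rw [← Finset.sum_mul, ENNReal.div_eq_inv_mul, mul_comm]
  · rw [intervalIntegral.integral_of_le zero_le_one]
    have h1 : ∫ x in Ioc (0 : ℝ) 1, F (bits m x) =
        ∫ ω, F ω ∂((volume.restrict (Ioc (0 : ℝ) 1)).map (bits m)) :=
      (integral_map (int_meas m).aemeasurable
        (measurable_of_finite F).aestronglyMeasurable).symm
    have hfin : IsFiniteMeasure ((volume.restrict (Ioc (0 : ℝ) 1)).map (bits m)) :=
      Measure.isFiniteMeasure_map _ _
    rw [h1, integral_fintype Integrable.of_finite]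
    have h2 : ∀ ω, ((volume.restrict (Ioc (0 : ℝ) 1)).map (bits m)).real {ω} = ((2 : ℝ) ^ m)⁻¹ := by
      intro ω
      rw [Measure.real, int_level]
      simp
    simp only [h2]
    rw [← Finset.smul_sum, Complex.real_smul, div_eq_inv_mul]
    push_cast
    ring

end Pool.Agent.MP777.Walsh
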