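import Pool.Agent.Lib.MP_777af9_an.Walsh.Spec

/-!
# MP_777af9_an: the Walsh model, module KE
-/

open MeasureTheory Set Filter Topology
open scoped ENNReal

noncomputable section

namespace Pool.Agent.MP777.Walsh

private theorem sum_blocks (s D : ℕ) (f : ℕ → ℝ) :
    ∑ p ∈ Finset.range ((s + 1) * D), f p =
      ∑ i : Fin (s + 1), ∑ k : Fin D, f ((k : ℕ) + D * (i : ℕ)) := by
  rw [Finset.sum_range, ← finProdFinEquiv.sum_comp, Fintype.sum_prod_type]
  rfl

private theorem prod_blocks (s D : ℕ) (f : ℕ → ℝ) :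
    ∏ p ∈ Finset.range ((s + 1) * D), f p =
      ∏ i : Fin (s + 1), ∏ k : Fin D, f ((k : ℕ) + D * (i : ℕ)) := by
  rw [Finset.prod_range, ← finProdFinEquiv.prod_comp, Fintype.prod_prod_type]
  rfl

private theorem W_range (z : ℕ → ℝ) (N n : ℕ) (h : N < 2 ^ n) :
    W z N = ∏ k ∈ Finset.range n, if N.testBit k then z k else 1 := by
  have h1 : ∏ k ∈ Finset.range N, (if N.testBit k then z k else 1) =
      ∏ k ∈ Finset.range (max N n), if N.testBit k then z k else 1 := by
    apply Finset.prod_subset
    · exact Finset.range_subset_range.mpr (le_max_left _ _)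
    · intro k _ hk
      rw [Finset.mem_range, not_lt] at hk
      have : N < 2 ^ k := lt_of_lt_of_le Nat.lt_two_pow_self (Nat.pow_le_pow_right (by norm_num) hk)
      rw [Nat.testBit_lt_two_pow this]
      simp
  have h2 : ∏ k ∈ Finset.range n, (if N.testBit k then z k else 1) =
      ∏ k ∈ Finset.range (max N n), if N.testBit k then z k else 1 := by
    apply Finset.prod_subset
    · exact Finset.range_subset_range.mpr (le_max_right _ _)
    · intro k _ hk
      rw [Finset.mem_range, not_lt] at hk
      have : N < 2 ^ k := lt_of_lt_of_le h (Nat.pow_le_pow_right (by norm_num) hk)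
      rw [Nat.testBit_lt_two_pow this]
      simp
  unfold W
  rw [h1, h2]

private theorem ext_blk {s D : ℕ} (ω : Cu ((s + 1) * D)) (i : Fin (s + 1)) (k : Fin D) :
    ext ω ((k : ℕ) + D * (i : ℕ)) = sg (blk ω i k) := by
  have h : (k : ℕ) + D * (i : ℕ) < (s + 1) * D := (finProdFinEquiv (i, k)).2
  unfold ext blk
  rw [dif_pos h]
  rfl

private theorem W_one {s D : ℕ} (N : ℕ) (v : Cu D) (hN : N < 2 ^ ((s + 1) * D))
    (hv : ∀ (i : Fin (s + 1)) (k : Fin D), N.testBit ((k : ℕ) + D * (i : ℕ)) = v k)
    (ω : Cu ((s + 1) * D)) (hω : InE ω) : W (ext ω) N = 1 := by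
  rw [W_range _ _ _ hN, prod_blocks, Finset.prod_comm]
  apply Finset.prod_eq_one
  intro k _
  by_cases hk : v k = true
  · rw [← hω.2 k]
    apply Finset.prod_congr rfl
    intro i _
    rw [hv, if_pos hk, ext_blk]
  · apply Finset.prod_eq_one
    intro i _
    rw [hv, if_neg hk]

theorem pKE (h1 : S_Fac) : S_KE := by
  intro s D N v hD hN hv x j hlt hj
  obtain ⟨f1, f2⟩ := h1 s D hD x
  have e1 : ∀ ω : Cu ((s + 1) * D), (if InE ω then (1 : ℝ) else 0) * W (ext ω) N *
      (∑ p ∈ Finset.range ((s + 1) * D), if N.testBit p then ext x p * ext ω p *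
        ∏ q ∈ Finset.range p, (1 + ext x q * ext ω q) else 0) =
      ∑ i : Fin (s + 1), ∑ k : Fin D, if v k then
        (if InE ω then (1 : ℝ) else 0) * ker x ω ((k : ℕ) + D * (i : ℕ)) else 0 := by
    intro ω
    have e2 : (if InE ω then (1 : ℝ) else 0) * W (ext ω) N = if InE ω then (1 : ℝ) else 0 := by
      by_cases hω : InE ω
      · rw [W_one N v hN hv ω hω, mul_one]
      · rw [if_neg hω, zero_mul]
    rw [e2, sum_blocks, Finset.mul_sum]
    apply Finset.sum_congr rfl
    intro i _
    rw [Finset.mul_sum]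
    apply Finset.sum_congr rfl
    intro k _
    rw [hv]
    by_cases hk : v k = true
    · rw [if_pos hk, if_pos hk]
      rfl
    · rw [if_neg hk, if_neg hk, mul_zero]
  have e3 : (∑ ω : Cu ((s + 1) * D), (if InE ω then (1 : ℝ) else 0) * W (ext ω) N *
      ∑ p ∈ Finset.range ((s + 1) * D), if N.testBit p then ext x p * ext ω p *
        ∏ q ∈ Finset.range p, (1 + ext x q * ext ω q) else 0) =
      ∑ i : Fin (s + 1), ∑ k : Fin D, if v k then
        ∑ ω : Cu ((s + 1) * D), (if InE ω then (1 : ℝ) else 0) *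
          ker x ω ((k : ℕ) + D * (i : ℕ)) else 0 := by
    rw [Finset.sum_congr rfl (fun ω _ => e1 ω), Finset.sum_comm]
    apply Finset.sum_congr rfl
    intro i _
    rw [Finset.sum_comm]
    apply Finset.sum_congr rfl
    intro k _
    by_cases hk : v k = true
    · simp only [if_pos hk]
    · simp only [if_neg hk, Finset.sum_const_zero]
  rw [e3, Fin.sum_univ_castSucc]
  have e4 : (∑ k : Fin D, if v k then
        ∑ ω : Cu ((s + 1) * D), (if InE ω then (1 : ℝ) else 0) *
          ker x ω ((k : ℕ) + D * ((Fin.last s : Fin (s + 1)) : ℕ)) else 0) = 0 := by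
    apply Finset.sum_eq_zero
    intro k _
    by_cases hk : v k = true
    · rw [if_pos hk]
      apply Finset.sum_eq_zero
      intro ω _
      by_cases hω : InE ω
      · rw [Fin.val_last, f2 j hj k ω hω, mul_zero]
      · rw [if_neg hω, zero_mul]
    · rw [if_neg hk]
  rw [e4, add_zero, Finset.sum_div, Finset.sum_div, Finset.sum_filter]
  apply Finset.sum_congr rfl
  intro i _
  rw [Finset.sum_div]
  by_cases hij : i ≤ j
  · rw [if_pos hij, Finset.mul_sum, Finset.sum_div]
    apply Finset.sum_congr rfl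
    intro k _
    by_cases hk : v k = true
    · rw [if_pos hk, if_pos hk, Fin.val_castSucc, f1 i k,
        if_pos (fun i' hi' => hlt i' (lt_of_lt_of_le hi' hij))]
    · rw [if_neg hk, if_neg hk, zero_div, mul_zero, zero_div]
  · rw [if_neg hij]
    apply Finset.sum_eq_zero
    intro k _
    by_cases hk : v k = true
    · rw [if_pos hk, Fin.val_castSucc, f1 i k, if_neg (fun hh => hj (hh j (not_le.mp hij))),
        zero_div]
    · rw [if_neg hk, zero_div]

end Pool.Agent.MP777.Walsh
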