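import Pool.Agent.Lib.MP_777af9_an.Walsh.Spec

/-!
# MP_777af9_an: the Walsh model, module Khin (Khinchin's inequality)
-/

open MeasureTheory Set Filter Topology
open scoped ENNReal

noncomputable section

namespace Pool.Agent.MP777.Walsh

private theorem Khin_sum_succ (D : ℕ) (f : Cu (D + 1) → ℝ) :
    ∑ y : Cu (D + 1), f y =
      ∑ y : Cu D, (f (Fin.cons true y) + f (Fin.cons false y)) := by
  rw [← (Fin.consEquiv (fun _ : Fin (D + 1) => Bool)).sum_comp f, Fintype.sum_prod_type]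
  rw [Fintype.sum_bool, ← Finset.sum_add_distrib]
  rfl

private theorem Khin_sg_cons (D : ℕ) (b : Bool) (y : Cu D) :
    ∑ k, sg ((Fin.cons b y : Cu (D + 1)) k) = sg b + ∑ k, sg (y k) := by
  rw [Fin.sum_univ_succ]
  simp only [Fin.cons_zero, Fin.cons_succ]

private theorem Khin_card (D : ℕ) : ∑ _y : Cu D, (1 : ℝ) = 2 ^ D := by
  rw [Finset.sum_const, Finset.card_univ, Fintype.card_fun, Fintype.card_bool, Fintype.card_fin,
    nsmul_eq_mul, mul_one]
  norm_cast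

private theorem Khin_two (D : ℕ) : ∑ y : Cu D, (∑ k, sg (y k)) ^ 2 = D * 2 ^ D := by
  induction D with
  | zero => simp
  | succ D ih =>
    rw [Khin_sum_succ]
    have h : ∀ y : Cu D, (∑ k, sg ((Fin.cons true y : Cu (D + 1)) k)) ^ 2 +
        (∑ k, sg ((Fin.cons false y : Cu (D + 1)) k)) ^ 2 =
        2 * (∑ k, sg (y k)) ^ 2 + 2 * 1 := by
      intro y
      rw [Khin_sg_cons, Khin_sg_cons]
      simp only [sg, if_true, Bool.false_eq_true, if_false]
      ring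
    rw [Finset.sum_congr rfl fun y _ => h y, Finset.sum_add_distrib, ← Finset.mul_sum,
      ← Finset.mul_sum, ih, Khin_card]
    push_cast
    ring

private theorem Khin_four (D : ℕ) :
    ∑ y : Cu D, (∑ k, sg (y k)) ^ 4 = (3 * (D : ℝ) ^ 2 - 2 * D) * 2 ^ D := by
  induction D with
  | zero => simp
  | succ D ih =>
    rw [Khin_sum_succ]
    have h : ∀ y : Cu D, (∑ k, sg ((Fin.cons true y : Cu (D + 1)) k)) ^ 4 +
        (∑ k, sg ((Fin.cons false y : Cu (D + 1)) k)) ^ 4 =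
        2 * (∑ k, sg (y k)) ^ 4 + 12 * (∑ k, sg (y k)) ^ 2 + 2 * 1 := by
      intro y
      rw [Khin_sg_cons, Khin_sg_cons]
      simp only [sg, if_true, Bool.false_eq_true, if_false]
      ring
    rw [Finset.sum_congr rfl fun y _ => h y, Finset.sum_add_distrib, Finset.sum_add_distrib,
      ← Finset.mul_sum, ← Finset.mul_sum, ← Finset.mul_sum, ih, Khin_two, Khin_card]
    push_cast
    ring

theorem pKhin : S_Khin := by
  intro D
  unfold A1
  have h2D : (0 : ℝ) < 2 ^ D := by positivity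
  rw [le_div_iff₀ h2D]
  rcases Nat.eq_zero_or_pos D with rfl | hD
  · simp
  obtain ⟨r, hr⟩ : ∃ r : ℝ, r = Real.sqrt D := ⟨_, rfl⟩
  have hr0 : 0 < r := by
    rw [hr]
    exact Real.sqrt_pos.2 (by exact_mod_cast hD)
  have hr2 : r ^ 2 = D := by
    rw [hr]
    exact Real.sq_sqrt (by positivity)
  rw [← hr]
  have key : ∀ y : Cu D, (∑ k, sg (y k)) ^ 2 * r ^ 2 - 4 / 27 * (∑ k, sg (y k)) ^ 4 ≤
      |∑ k, sg (y k)| * r ^ 3 := by
    intro y
    obtain ⟨u, hu⟩ : ∃ u : ℝ, u = |∑ k, sg (y k)| := ⟨_, rfl⟩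
    have hu0 : 0 ≤ u := by
      rw [hu]
      exact abs_nonneg _
    have h2 : (∑ k, sg (y k)) ^ 2 = u ^ 2 := by rw [hu, sq_abs]
    have h4 : (∑ k, sg (y k)) ^ 4 = u ^ 4 := by
      have : (∑ k, sg (y k)) ^ 4 = ((∑ k, sg (y k)) ^ 2) ^ 2 := by ring
      rw [this, h2]
      ring
    rw [h2, h4, ← hu]
    have h5 : 0 ≤ u * ((u - 3 / 2 * r) ^ 2 * (u + 3 * r)) := by positivity
    nlinarith [h5]
  have h6 := Finset.sum_le_sum fun (y : Cu D) (_ : y ∈ Finset.univ) => key y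
  rw [Finset.sum_sub_distrib, ← Finset.sum_mul, ← Finset.mul_sum, ← Finset.sum_mul, Khin_two,
    Khin_four, ← hr2] at h6
  have h7 : 5 / 9 * r * 2 ^ D * r ^ 3 ≤ (∑ y : Cu D, |∑ k, sg (y k)|) * r ^ 3 := by
    refine le_trans ?_ h6
    have h8 : 0 ≤ r ^ 2 * 2 ^ D := by positivity
    nlinarith [h8]
  exact le_of_mul_le_mul_right h7 (by positivity)

end Pool.Agent.MP777.Walsh
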