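import Pool.Agent.Lib.MP_777af9_an.Walsh.Spec

/-!
# MP_777af9_an: the Walsh model, module Low (sum over the exits)
-/

open MeasureTheory Set Filter Topology
open scoped ENNReal

noncomputable section

namespace Pool.Agent.MP777.Walsh

private theorem Low_prod {s : ℕ} (j : Fin s) (g : Fin s → ℝ) (c : ℝ)
    (h1 : ∀ l, l < j → g l = 1 / 2) (h2 : g j = c) (h3 : ∀ l, j < l → g l = 1) :
    ∏ l, g l = (1 / 2) ^ (j : ℕ) * c := by
  have h4 : ∀ l, g l = (if l ∈ Finset.Iio j then (1 / 2 : ℝ) else 1) * (if l = j then c else 1) := by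
    intro l
    rcases lt_trichotomy l j with h | h | h
    · rw [if_pos (Finset.mem_Iio.2 h), if_neg h.ne, mul_one, h1 l h]
    · subst h
      rw [if_neg (by simp), if_pos rfl, one_mul, h2]
    · rw [if_neg (by simpa using h.le), if_neg h.ne', mul_one, h3 l h]
  rw [Finset.prod_congr rfl fun l _ => h4 l, Finset.prod_mul_distrib, Finset.prod_ite_mem,
    Finset.univ_inter, Finset.prod_const, Fin.card_Iio, Finset.prod_ite_eq' Finset.univ j,
    if_pos (Finset.mem_univ j)]

private theorem Low_sum {s D : ℕ} (h : Fin s → Cu D → ℝ) :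
    (∑ x : Fin s → Cu D, ∏ l, h l (x l)) / 2 ^ (s * D) = ∏ l, ((∑ y, h l y) / 2 ^ D) := by
  rw [Finset.prod_div_distrib, Finset.prod_univ_sum, Fintype.piFinset_univ, Finset.prod_const,
    Finset.card_univ, Fintype.card_fin, ← pow_mul, mul_comm D s]

private theorem Low_Mj (hH : S_Half) {D : ℕ} (hD : Odd D) :
    (∑ y : Cu D, if Mj y then (1 : ℝ) else 0) / 2 ^ D = 1 / 2 ∧
    (∑ y : Cu D, if Mj y then (0 : ℝ) else 1) / 2 ^ D = 1 / 2 := by
  have h1 := hH D hD
  have hD1 : 1 ≤ D := hD.pos
  have h2 : (2 : ℝ) ^ D = 2 ^ (D - 1) * 2 := by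
    rw [← pow_succ]
    congr 1
    omega
  have h3 : (∑ y : Cu D, if Mj y then (1 : ℝ) else 0) = 2 ^ (D - 1) := by
    rw [Finset.sum_boole, h1]
    norm_cast
  have h4 : (∑ y : Cu D, if Mj y then (0 : ℝ) else 1) = 2 ^ D - 2 ^ (D - 1) := by
    have e1 : ∀ y : Cu D, (if Mj y then (0 : ℝ) else 1) = 1 - if Mj y then (1 : ℝ) else 0 := by
      intro y
      split_ifs <;> norm_num
    rw [Finset.sum_congr rfl fun y _ => e1 y, Finset.sum_sub_distrib, h3, Finset.sum_const,
      Finset.card_univ, Fintype.card_fun, Fintype.card_bool, Fintype.card_fin, nsmul_eq_mul,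
      mul_one]
    norm_cast
  have h5 : (2 : ℝ) ^ (D - 1) ≠ 0 := by positivity
  rw [h3, h4, h2]
  exact ⟨by field_simp, by field_simp; ring⟩

private theorem Low_first (hH : S_Half) {s D : ℕ} (hD : Odd D) (j : Fin s) (F : Cu D → ℝ) :
    (∑ x : Fin s → Cu D, if (∀ i, i < j → Mj (x i)) ∧ ¬ Mj (x j) then F (x j) else 0) /
      2 ^ (s * D) = (1 / 2) ^ (j : ℕ) * ((∑ y, if Mj y then 0 else F y) / 2 ^ D) := by
  obtain ⟨h, hh⟩ : ∃ h : Fin s → Cu D → ℝ, h = fun l y => if l < j then (if Mj y then 1 else 0)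
      else if l = j then (if Mj y then 0 else F y) else 1 := ⟨_, rfl⟩
  have e1 : ∀ x : Fin s → Cu D,
      (if (∀ i, i < j → Mj (x i)) ∧ ¬ Mj (x j) then F (x j) else 0) = ∏ l, h l (x l) := by
    intro x
    by_cases hx : (∀ i, i < j → Mj (x i)) ∧ ¬ Mj (x j)
    · rw [if_pos hx, Finset.prod_eq_single j]
      · rw [hh]
        simp only [lt_irrefl, if_false, if_true]
        rw [if_neg hx.2]
      · intro l _ hl
        rw [hh]
        rcases lt_or_gt_of_ne hl with h1 | h1
        · simp only [if_pos h1, if_pos (hx.1 l h1)]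
        · simp only [if_neg h1.asymm, if_neg h1.ne']
      · intro h1
        exact absurd (Finset.mem_univ j) h1
    · rw [if_neg hx]
      symm
      rw [not_and_or, not_not] at hx
      rcases hx with hx | hx
      · push Not at hx
        obtain ⟨i, hi1, hi2⟩ := hx
        refine Finset.prod_eq_zero (Finset.mem_univ i) ?_
        rw [hh]
        simp only [if_pos hi1, if_neg hi2]
      · refine Finset.prod_eq_zero (Finset.mem_univ j) ?_
        rw [hh]
        simp only [lt_irrefl, if_false, if_true, if_pos hx]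
  rw [Finset.sum_congr rfl fun x _ => e1 x, Low_sum, Low_prod j _ ((∑ y, if Mj y then 0 else F y) /
    2 ^ D)]
  · intro l hl
    rw [hh]
    simp only [if_pos hl]
    exact (Low_Mj hH hD).1
  · rw [hh]
    simp only [lt_irrefl, if_false, if_true]
  · intro l hl
    rw [hh]
    simp only [if_neg hl.asymm, if_neg hl.ne', Finset.sum_const, Finset.card_univ,
      Fintype.card_fun, Fintype.card_bool, Fintype.card_fin, nsmul_eq_mul, mul_one]
    push_cast
    exact div_self (by positivity)

private theorem Low_second (hH : S_Half) {s D : ℕ} (hD : Odd D) (i j : Fin s) (hij : i < j)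
    (G : Cu D → Cu D → ℝ) (hG0 : ∀ v y, 0 ≤ G v y) (hG : ∀ v, (∑ y, G v y) / 2 ^ D ≤ 1 / 2) :
    (∑ x : Fin s → Cu D, if (∀ i, i < j → Mj (x i)) ∧ ¬ Mj (x j) then G (x j) (x i) else 0) /
      2 ^ (s * D) ≤ (1 / 2) ^ ((j : ℕ) + 1) := by
  have h2D : (0 : ℝ) < 2 ^ D := by positivity
  obtain ⟨h, hh⟩ : ∃ h : Cu D → Fin s → Cu D → ℝ, h = fun v l y =>
      if l < j then (if l = i then (if Mj y then G v y else 0) else (if Mj y then 1 else 0))
      else if l = j then (if v = y then (if Mj y then 0 else 1) else 0) else 1 :=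
    ⟨_, rfl⟩
  have e1 : ∀ x : Fin s → Cu D,
      (if (∀ i, i < j → Mj (x i)) ∧ ¬ Mj (x j) then G (x j) (x i) else 0) =
        ∑ v, ∏ l, h v l (x l) := by
    intro x
    rw [Finset.sum_eq_single (x j)]
    · by_cases hx : (∀ i, i < j → Mj (x i)) ∧ ¬ Mj (x j)
      · rw [if_pos hx, Finset.prod_eq_single i]
        · rw [hh]
          simp only [if_pos hij, if_true, if_pos (hx.1 i hij)]
        · intro l _ hl
          rw [hh]
          rcases lt_trichotomy l j with h1 | h1 | h1
          · simp only [if_pos h1, if_neg hl, if_pos (hx.1 l h1)]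
          · subst h1
            simp only [lt_irrefl, if_false, if_true, if_neg hx.2]
          · simp only [if_neg h1.asymm, if_neg h1.ne']
        · intro h1
          exact absurd (Finset.mem_univ i) h1
      · rw [if_neg hx]
        symm
        rw [not_and_or, not_not] at hx
        rcases hx with hx | hx
        · push Not at hx
          obtain ⟨i', hi1, hi2⟩ := hx
          refine Finset.prod_eq_zero (Finset.mem_univ i') ?_
          rw [hh]
          simp only [if_pos hi1, if_neg hi2, ite_self]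
        · refine Finset.prod_eq_zero (Finset.mem_univ j) ?_
          rw [hh]
          simp only [lt_irrefl, if_false, if_true, if_pos hx]
    · intro v _ hv
      refine Finset.prod_eq_zero (Finset.mem_univ j) ?_
      rw [hh]
      simp only [lt_irrefl, if_false, if_true, if_neg hv]
    · intro h1
      exact absurd (Finset.mem_univ _) h1
  rw [Finset.sum_congr rfl fun x _ => e1 x, Finset.sum_comm, Finset.sum_div]
  have e2 : ∀ v : Cu D, (∑ x : Fin s → Cu D, ∏ l, h v l (x l)) / 2 ^ (s * D) ≤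
      (1 / 2) ^ (j : ℕ) * ((if Mj v then 0 else 1) / 2 ^ D) := by
    intro v
    rw [Low_sum]
    obtain ⟨g, hg⟩ : ∃ g : Fin s → ℝ, g = fun l => if l < j then 1 / 2 else if l = j then
      ((if Mj v then 0 else 1) / 2 ^ D) else 1 := ⟨_, rfl⟩
    have e3 : ∏ l, g l = (1 / 2) ^ (j : ℕ) * ((if Mj v then 0 else 1) / 2 ^ D) := by
      refine Low_prod j g _ ?_ ?_ ?_
      · intro l hl
        rw [hg]
        simp only [if_pos hl]
      · rw [hg]
        simp only [lt_irrefl, if_false, if_true]
      · intro l hl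
        rw [hg]
        simp only [if_neg hl.asymm, if_neg hl.ne']
    rw [← e3]
    refine Finset.prod_le_prod ?_ ?_
    · intro l _
      refine div_nonneg (Finset.sum_nonneg fun y _ => ?_) h2D.le
      rw [hh]
      dsimp only
      split_ifs <;> first | exact hG0 _ _ | norm_num
    · intro l _
      rw [hh, hg]
      rcases lt_trichotomy l j with h1 | h1 | h1
      · simp only [if_pos h1]
        by_cases h2 : l = i
        · simp only [if_pos h2]
          refine le_trans ?_ (hG v)
          refine div_le_div_of_nonneg_right (Finset.sum_le_sum fun y _ => ?_) h2D.le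
          split_ifs
          · exact le_rfl
          · exact hG0 v y
        · simp only [if_neg h2]
          exact (Low_Mj hH hD).1.le
      · subst h1
        simp only [lt_irrefl, if_false, if_true]
        rw [Finset.sum_ite_eq Finset.univ v, if_pos (Finset.mem_univ v)]
      · simp only [if_neg h1.asymm, if_neg h1.ne', Finset.sum_const, Finset.card_univ,
          Fintype.card_fun, Fintype.card_bool, Fintype.card_fin, nsmul_eq_mul, mul_one]
        push_cast
        exact (div_self (by positivity)).le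
  refine (Finset.sum_le_sum fun v _ => e2 v).trans (le_of_eq ?_)
  rw [← Finset.mul_sum, ← Finset.sum_div, (Low_Mj hH hD).2, pow_succ]

theorem pLow (h1 : S_Half) (h2 : S_Var) : S_Low := by
  intro s D hD
  have hsD : (0 : ℝ) < 2 ^ (s * D) := by positivity
  obtain ⟨κ, hκ⟩ : ∃ κ : Cu D → Cu D → ℝ, κ = fun v z => ∑ k : Fin D, if v k then kap k z else 0 :=
    ⟨_, rfl⟩
  have key : ∀ j : Fin s, 2 * gn D - 1 ≤ (∑ x : Fin s → Cu D,
      if (∀ i, i < j → Mj (x i)) ∧ ¬ Mj (x j) then
      |∑ i ∈ Finset.univ.filter (fun i : Fin s => i ≤ j), 2 ^ ((i : ℕ) + 1) *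
        ∑ k : Fin D, if x j k then kap k (x i) else 0| else 0) / 2 ^ (s * D) := by
    intro j
    have e1 : ∀ x : Fin s → Cu D,
        2 ^ ((j : ℕ) + 1) * (if (∀ i, i < j → Mj (x i)) ∧ ¬ Mj (x j) then |κ (x j) (x j)| else 0) -
        ∑ i ∈ Finset.univ.filter (fun i : Fin s => i < j), 2 ^ ((i : ℕ) + 1) *
          (if (∀ i, i < j → Mj (x i)) ∧ ¬ Mj (x j) then |κ (x j) (x i)| else 0) ≤
        if (∀ i, i < j → Mj (x i)) ∧ ¬ Mj (x j) then
          |∑ i ∈ Finset.univ.filter (fun i : Fin s => i ≤ j), 2 ^ ((i : ℕ) + 1) *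
          ∑ k : Fin D, if x j k then kap k (x i) else 0| else 0 := by
      intro x
      by_cases hx : (∀ i, i < j → Mj (x i)) ∧ ¬ Mj (x j)
      · simp only [if_pos hx]
        have e2 : Finset.univ.filter (fun i : Fin s => i ≤ j) =
            insert j (Finset.univ.filter (fun i : Fin s => i < j)) := by
          ext i
          simp only [Finset.mem_filter, Finset.mem_univ, true_and, Finset.mem_insert]
          exact le_iff_eq_or_lt
        rw [e2, Finset.sum_insert (by simp)]
        have e3 : ∀ i : Fin s, (∑ k : Fin D, if x j k then kap k (x i) else 0) = κ (x j) (x i) := by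
          intro i
          rw [hκ]
        simp only [e3]
        have e4 := abs_sub_abs_le_abs_sub (2 ^ ((j : ℕ) + 1) * κ (x j) (x j))
          (-∑ i ∈ Finset.univ.filter (fun i : Fin s => i < j), 2 ^ ((i : ℕ) + 1) * κ (x j) (x i))
        rw [sub_neg_eq_add, abs_neg] at e4
        have e5 : |2 ^ ((j : ℕ) + 1) * κ (x j) (x j)| = 2 ^ ((j : ℕ) + 1) * |κ (x j) (x j)| := by
          rw [abs_mul, abs_of_pos (by positivity)]
        have e6 : |∑ i ∈ Finset.univ.filter (fun i : Fin s => i < j),
            2 ^ ((i : ℕ) + 1) * κ (x j) (x i)| ≤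
            ∑ i ∈ Finset.univ.filter (fun i : Fin s => i < j),
              2 ^ ((i : ℕ) + 1) * |κ (x j) (x i)| := by
          refine (Finset.abs_sum_le_sum_abs _ _).trans (Finset.sum_le_sum fun i _ => ?_)
          rw [abs_mul, abs_of_pos (by positivity)]
        rw [e5] at e4
        linarith
      · simp only [if_neg hx, mul_zero, Finset.sum_const_zero, sub_zero, le_refl]
    have e7 := Finset.sum_le_sum fun (x : Fin s → Cu D) (_ : x ∈ Finset.univ) => e1 x
    have e8 := div_le_div_of_nonneg_right e7 hsD.le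
    refine le_trans ?_ e8
    rw [Finset.sum_sub_distrib, sub_div, ← Finset.mul_sum, mul_div_assoc,
      Low_first h1 hD j (fun y => |κ y y|)]
    have e9 : (2 : ℝ) ^ ((j : ℕ) + 1) * ((1 / 2) ^ (j : ℕ) *
        ((∑ y : Cu D, if Mj y then 0 else |κ y y|) / 2 ^ D)) = 2 * gn D := by
      have f1 : (2 : ℝ) ^ (j : ℕ) * (1 / 2) ^ (j : ℕ) = 1 := by
        rw [← mul_pow]
        norm_num
      have f2 : (∑ y : Cu D, if Mj y then 0 else |κ y y|) / 2 ^ D = gn D := by
        rw [hκ]
        rfl
      rw [f2, pow_succ]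
      calc (2 : ℝ) ^ (j : ℕ) * 2 * ((1 / 2) ^ (j : ℕ) * gn D) =
          (2 : ℝ) ^ (j : ℕ) * (1 / 2) ^ (j : ℕ) * (2 * gn D) := by ring
        _ = 2 * gn D := by rw [f1, one_mul]
    rw [e9, Finset.sum_comm, Finset.sum_div]
    have e10 : ∑ i ∈ Finset.univ.filter (fun i : Fin s => i < j),
        (∑ x : Fin s → Cu D, 2 ^ ((i : ℕ) + 1) *
          (if (∀ i, i < j → Mj (x i)) ∧ ¬ Mj (x j) then |κ (x j) (x i)| else 0)) /
          2 ^ (s * D) ≤
        ∑ i ∈ Finset.univ.filter (fun i : Fin s => i < j), (2 : ℝ) ^ (i : ℕ) * (1 / 2) ^ (j : ℕ) := by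
      refine Finset.sum_le_sum fun i hi => ?_
      rw [← Finset.mul_sum, mul_div_assoc]
      have f1 := Low_second h1 hD i j (Finset.mem_filter.1 hi).2 (fun v z => |κ v z|)
        (fun v y => abs_nonneg _) (fun v => by rw [hκ]; exact h2 D v)
      have f2 : (0 : ℝ) ≤ 2 ^ ((i : ℕ) + 1) := by positivity
      refine (mul_le_mul_of_nonneg_left f1 f2).trans (le_of_eq ?_)
      rw [pow_succ, pow_succ]
      ring
    have e11 : ∑ i ∈ Finset.univ.filter (fun i : Fin s => i < j),
        (2 : ℝ) ^ (i : ℕ) * (1 / 2) ^ (j : ℕ) ≤ 1 := by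
      rw [← Finset.sum_mul]
      have f1 : ∑ i ∈ Finset.univ.filter (fun i : Fin s => i < j), (2 : ℝ) ^ (i : ℕ) =
          ∑ i ∈ Finset.range (j : ℕ), (2 : ℝ) ^ i := by
        refine Finset.sum_bij (fun i _ => (i : ℕ)) ?_ ?_ ?_ ?_
        · intro i hi
          exact Finset.mem_range.2 (Finset.mem_filter.1 hi).2
        · intro i _ i' _ h
          exact Fin.ext h
        · intro b hb
          have hb' := Finset.mem_range.1 hb
          exact ⟨⟨b, hb'.trans j.2⟩, Finset.mem_filter.2 ⟨Finset.mem_univ _, hb'⟩, rfl⟩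
        · intro i _
          rfl
      have f2 : ∑ i ∈ Finset.range (j : ℕ), (2 : ℝ) ^ i ≤ 2 ^ (j : ℕ) := by
        rw [geom_sum_eq (by norm_num)]
        norm_num
      have f3 : (2 : ℝ) ^ (j : ℕ) * (1 / 2) ^ (j : ℕ) = 1 := by
        rw [← mul_pow]
        norm_num
      rw [f1]
      exact (mul_le_mul_of_nonneg_right f2 (by positivity)).trans f3.le
    linarith
  calc (s : ℝ) * (2 * gn D - 1) = ∑ _j : Fin s, (2 * gn D - 1) := by
        rw [Finset.sum_const, Finset.card_univ, Fintype.card_fin, nsmul_eq_mul]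
    _ ≤ _ := Finset.sum_le_sum fun j _ => key j

end Pool.Agent.MP777.Walsh
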