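import Pool.Agent.Lib.MP_777af9_an.Walsh.Spec

/-!
# MP_777af9_an, Walsh model: lower bound for the maximal function of the indicator of `E`
-/

open MeasureTheory Set Filter Topology
open scoped ENNReal

noncomputable section

namespace Pool.Agent.MP777.Walsh

/-- First exit in the block `j`. -/
private def exit {s D : ℕ} (j : Fin s) (x : Cu ((s + 1) * D)) : Prop :=
  (∀ i : Fin s, i < j → Mj (blk x i.castSucc)) ∧ ¬ Mj (blk x j.castSucc)

private instance {s D : ℕ} (j : Fin s) (x : Cu ((s + 1) * D)) : Decidable (exit j x) :=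
  Classical.propDecidable _

private def U {s D : ℕ} (j : Fin s) (x : Fin s → Cu D) : ℝ :=
  |∑ i ∈ Finset.univ.filter (fun i : Fin s => i ≤ j), 2 ^ ((i : ℕ) + 1) *
      ∑ k : Fin D, if x j k then kap k (x i) else 0|

private def xi {s D : ℕ} (x : Cu ((s + 1) * D)) : Fin s → Cu D := fun i => blk x i.castSucc

private def gg {s D : ℕ} (x : Cu ((s + 1) * D)) : ℝ :=
  ∑ j : Fin s, if exit j x then U j (xi x) / 2 ^ (s + D) else 0

private def hh {s D : ℕ} (z : Cu D × (Fin s → Cu D)) : ℝ :=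
  ∑ j : Fin s, (if (∀ i, i < j → Mj (z.2 i)) ∧ ¬ Mj (z.2 j) then U j z.2 / 2 ^ (s + D) else 0)

private theorem exit_unique {s D : ℕ} {j j' : Fin s} {x : Cu ((s + 1) * D)} (h : exit j x)
    (h' : exit j' x) : j = j' := by
  rcases lt_trichotomy j j' with hlt | heq | hlt
  · exact absurd (h'.1 j hlt) h.2
  · exact heq
  · exact absurd (h.1 j' hlt) h'.2

/-- Points of the cube as pairs (first `s` blocks, last block). -/
private def eqv (s D : ℕ) : Cu ((s + 1) * D) ≃ Cu D × (Fin s → Cu D) :=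
  ((Equiv.arrowCongr (finProdFinEquiv (m := s + 1) (n := D)).symm (Equiv.refl Bool)).trans
    (Equiv.curry (Fin (s + 1)) (Fin D) Bool)).trans
    (Fin.snocEquiv (fun _ : Fin (s + 1) => Cu D)).symm

private theorem eqv_snd {s D : ℕ} (x : Cu ((s + 1) * D)) : (eqv s D x).2 = xi x := by
  rfl

private theorem abs_wal (N : ℕ) (x : ℝ) : |wal N x| = 1 := by
  unfold wal
  rw [Finset.abs_prod]
  refine Finset.prod_eq_one fun k _ => ?_
  split_ifs
  · unfold rad
    split_ifs <;> simp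
  · simp

private theorem wS_ind (s D N : ℕ) (x : ℝ) :
    wS N ((ER s D).indicator (fun _ => (1 : ℂ))) x =
      wS N (fun t => (((if InE (bits ((s + 1) * D) t) then (1 : ℝ) else 0 : ℝ)) : ℂ)) x := by
  unfold wS
  refine Finset.sum_congr rfl fun M _ => ?_
  congr 1
  unfold wco
  rw [intervalIntegral.integral_of_le zero_le_one, intervalIntegral.integral_of_le zero_le_one]
  refine setIntegral_congr_fun measurableSet_Ioc fun t ht => ?_
  simp only [Set.indicator, ER, Set.mem_ofPred_eq]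
  by_cases h : InE (bits ((s + 1) * D) t)
  · simp [h, ht]
  · simp [h]

private theorem exists_freq {s D : ℕ} (v : Cu D) : ∃ N : ℕ, N < 2 ^ ((s + 1) * D) ∧
    ∀ (i : Fin (s + 1)) (k : Fin D), N.testBit ((k : ℕ) + D * (i : ℕ)) = v k := by
  refine ⟨Nat.ofBits (fun p : Fin ((s + 1) * D) => v (finProdFinEquiv.symm p).2),
    Nat.ofBits_lt_two_pow _, fun i k => ?_⟩
  have h : (k : ℕ) + D * (i : ℕ) = ((finProdFinEquiv (i, k) : Fin ((s + 1) * D)) : ℕ) := rfl
  rw [h, Nat.testBit_ofBits_lt _ _ (Fin.is_lt _)]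
  change v (finProdFinEquiv.symm (finProdFinEquiv (i, k))).2 = v k
  rw [Equiv.symm_apply_apply]

private theorem gg_le (hPart : S_Part) (hKE : S_KE) {s D : ℕ} (hD : Odd D) (x : ℝ) :
    ENNReal.ofReal (gg (bits ((s + 1) * D) x)) ≤ Wf ((ER s D).indicator (fun _ => (1 : ℂ))) x := by
  by_cases h : ∃ j : Fin s, exit j (bits ((s + 1) * D) x)
  · obtain ⟨j, hj⟩ := h
    have h1 : gg (bits ((s + 1) * D) x) = U j (xi (bits ((s + 1) * D) x)) / 2 ^ (s + D) := by
      unfold gg
      rw [Finset.sum_eq_single j]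
      · simp [hj]
      · intro j' _ hne
        rw [if_neg]
        intro h'
        exact hne (exit_unique h' hj)
      · simp
    obtain ⟨N, hN, hbit⟩ := exists_freq (s := s) (blk (bits ((s + 1) * D) x) j.castSucc)
    refine le_trans ?_ (le_iSup _ N)
    rw [wS_ind, hPart ((s + 1) * D) (fun ω => if InE ω then (1 : ℝ) else 0) N hN x,
      hKE s D N _ hD hN hbit _ j hj.1 hj.2, h1]
    rw [← ofReal_norm]
    refine ENNReal.ofReal_le_ofReal ?_
    rw [Complex.norm_real, Real.norm_eq_abs, abs_mul, abs_wal, one_mul, abs_div]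
    have h2 : |(2 : ℝ) ^ (s + D)| = 2 ^ (s + D) := abs_of_pos (by positivity)
    rw [h2]
    rfl
  · have h1 : gg (bits ((s + 1) * D) x) = 0 := by
      unfold gg
      refine Finset.sum_eq_zero fun j _ => ?_
      rw [if_neg]
      intro h'
      exact h ⟨j, h'⟩
    rw [h1]
    simp

private theorem gg_nonneg {s D : ℕ} (x : Cu ((s + 1) * D)) : 0 ≤ gg x := by
  unfold gg
  refine Finset.sum_nonneg fun j _ => ?_
  split_ifs
  · exact div_nonneg (abs_nonneg _) (by positivity)
  · exact le_rfl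

private theorem sum_gg {s D : ℕ} (hLow : S_Low) (hD : Odd D) :
    (s : ℝ) * (2 * gn D - 1) / 2 ^ (s + D) ≤
      (∑ x : Cu ((s + 1) * D), gg x) / 2 ^ ((s + 1) * D) := by
  have h1 : ∑ x : Cu ((s + 1) * D), gg x = 2 ^ D * ∑ x : Fin s → Cu D,
      ∑ j : Fin s, (if (∀ i, i < j → Mj (x i)) ∧ ¬ Mj (x j) then U j x / 2 ^ (s + D) else 0) := by
    have h2 : ∀ x : Cu ((s + 1) * D), gg x = hh (eqv s D x) := by
      intro x
      unfold gg hh
      rw [eqv_snd]
      refine Finset.sum_congr rfl fun j _ => ?_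
      by_cases h : exit j x
      · rw [if_pos h, if_pos]
        exact h
      · rw [if_neg h, if_neg]
        exact h
    rw [Finset.sum_congr rfl fun x _ => h2 x, Equiv.sum_comp (eqv s D) hh, Fintype.sum_prod_type]
    simp [hh]
  have h3 := hLow s D hD
  rw [h1, Finset.sum_comm]
  have h4 : (2 : ℝ) ^ ((s + 1) * D) = 2 ^ (s * D) * 2 ^ D := by
    rw [← pow_add]
    congr 1
    ring
  rw [h4]
  have h5 : (2 : ℝ) ^ D * (∑ j : Fin s, ∑ x : Fin s → Cu D,
      (if (∀ i, i < j → Mj (x i)) ∧ ¬ Mj (x j) then U j x / 2 ^ (s + D) else 0)) /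
        (2 ^ (s * D) * 2 ^ D) =
      (∑ j : Fin s, (∑ x : Fin s → Cu D,
        (if (∀ i, i < j → Mj (x i)) ∧ ¬ Mj (x j) then U j x else 0)) / 2 ^ (s * D)) /
        2 ^ (s + D) := by
    have h6 : ∀ j : Fin s, ∑ x : Fin s → Cu D,
        (if (∀ i, i < j → Mj (x i)) ∧ ¬ Mj (x j) then U j x / 2 ^ (s + D) else 0) =
        (∑ x : Fin s → Cu D,
          (if (∀ i, i < j → Mj (x i)) ∧ ¬ Mj (x j) then U j x else 0)) / 2 ^ (s + D) := by
      intro j
      rw [Finset.sum_div]
      refine Finset.sum_congr rfl fun x _ => ?_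
      split_ifs <;> simp
    rw [Finset.sum_congr rfl fun j _ => h6 j, ← Finset.sum_div, ← Finset.sum_div]
    have h7 : (2 : ℝ) ^ D ≠ 0 := by positivity
    have h8 : (2 : ℝ) ^ (s * D) ≠ 0 := by positivity
    have h9 : (2 : ℝ) ^ (s + D) ≠ 0 := by positivity
    field_simp
  rw [h5]
  exact div_le_div_of_nonneg_right h3 (by positivity)

theorem pMain (hInt : S_Int) (hPart : S_Part) (hKE : S_KE) (hLow : S_Low) : S_Main := by
  intro s D hD
  have h1 : ∫⁻ x in Ioc (0 : ℝ) 1, ENNReal.ofReal (gg (s := s) (D := D) (bits ((s + 1) * D) x)) ≤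
      WL1 ((ER s D).indicator (fun _ => (1 : ℂ))) := by
    unfold WL1
    exact lintegral_mono fun x => gg_le hPart hKE hD x
  refine le_trans ?_ h1
  rw [(hInt ((s + 1) * D)).2.1 (fun ω => ENNReal.ofReal (gg (s := s) (D := D) ω)),
    ← ENNReal.ofReal_sum_of_nonneg (fun ω _ => gg_nonneg ω)]
  have h2 : (2 : ℝ≥0∞) ^ ((s + 1) * D) = ENNReal.ofReal (2 ^ ((s + 1) * D)) := by
    rw [ENNReal.ofReal_pow (by norm_num)]
    simp
  rw [h2, ← ENNReal.ofReal_div_of_pos (by positivity)]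
  exact ENNReal.ofReal_le_ofReal (sum_gg hLow hD)

end Pool.Agent.MP777.Walsh
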