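import Pool.Agent.Lib.MP_777af9_an.Walsh.Spec

/-!
# MP_777af9_an: the Walsh model, module Meas
-/

open MeasureTheory Set Filter Topology
open scoped ENNReal

noncomputable section

namespace Pool.Agent.MP777.Walsh

private theorem sg_inj (b c : Bool) (h : sg b = sg c) : b = c := by
  cases b <;> cases c <;> simp_all [sg] <;> norm_num at h

private theorem sg_or (b : Bool) : sg b = 1 ∨ sg b = -1 := by cases b <;> simp [sg]

private theorem prod_or {s : ℕ} (f : Fin s → Bool) :
    ∏ i, sg (f i) = 1 ∨ ∏ i, sg (f i) = -1 := by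
  apply Finset.prod_induction (fun i => sg (f i)) (fun z => z = 1 ∨ z = -1)
  · rintro a b (rfl | rfl) (rfl | rfl) <;> norm_num
  · left; rfl
  · intro i _
    exact sg_or _

/-- The point with given blocks. -/
private def ub {s D : ℕ} (z : Fin (s + 1) → Cu D) : Cu ((s + 1) * D) :=
  fun p => z (finProdFinEquiv.symm p).1 (finProdFinEquiv.symm p).2

private theorem blk_ub {s D : ℕ} (z : Fin (s + 1) → Cu D) (i : Fin (s + 1)) :
    blk (ub z) i = z i := by
  funext k
  unfold blk ub
  rw [Equiv.symm_apply_apply]

private theorem ub_blk {s D : ℕ} (ω : Cu ((s + 1) * D)) : ub (blk ω) = ω := by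
  funext p
  change ω (finProdFinEquiv ((finProdFinEquiv.symm p).1, (finProdFinEquiv.symm p).2)) = ω p
  rw [Prod.mk.eta, Equiv.apply_symm_apply]

/-- The last block of a point of `E`. -/
private def lb {s D : ℕ} (y : Fin s → Cu D) : Cu D := fun k => decide (∏ i, sg (y i k) = -1)

private theorem sg_lb {s D : ℕ} (y : Fin s → Cu D) (k : Fin D) :
    sg (lb y k) = ∏ i, sg (y i k) := by
  unfold lb
  rcases prod_or (fun i => y i k) with h | h
  · rw [h]
    have : ¬ ((1 : ℝ) = -1) := by norm_num
    rw [decide_eq_false this]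
    simp [sg]
  · rw [h, decide_eq_true rfl]
    simp [sg]

private theorem card_E (h2 : S_Half) (s D : ℕ) (hD : Odd D) :
    (Finset.univ.filter (fun ω : Cu ((s + 1) * D) => InE ω)).card = 2 ^ ((D - 1) * s) := by
  have h : (Finset.univ.filter (fun ω : Cu ((s + 1) * D) => InE ω)).card =
      (Fintype.piFinset (fun _ : Fin s => Finset.univ.filter (fun y : Cu D => Mj y))).card := by
    refine Finset.card_bij' (fun ω _ => fun i => blk ω i.castSucc)
      (fun y _ => ub (Fin.snoc (α := fun _ => Cu D) y (lb y))) ?_ ?_ ?_ ?_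
    · intro ω hω
      rw [Fintype.mem_piFinset]
      intro i
      rw [Finset.mem_filter]
      exact ⟨Finset.mem_univ _, (Finset.mem_filter.mp hω).2.1 i⟩
    · intro y hy
      rw [Fintype.mem_piFinset] at hy
      rw [Finset.mem_filter]
      refine ⟨Finset.mem_univ _, ?_, ?_⟩
      · intro i
        rw [blk_ub, Fin.snoc_castSucc]
        exact (Finset.mem_filter.mp (hy i)).2
      · intro k
        rw [Fin.prod_univ_castSucc]
        simp only [blk_ub, Fin.snoc_castSucc, Fin.snoc_last]
        rw [sg_lb]
        rcases prod_or (fun i => y i k) with h | h <;> rw [h] <;> norm_num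
    · intro ω hω
      have hE := (Finset.mem_filter.mp hω).2
      conv_rhs => rw [← ub_blk ω]
      congr 1
      funext i
      refine Fin.lastCases ?_ (fun i' => ?_) i
      · rw [Fin.snoc_last]
        funext k
        apply sg_inj
        rw [sg_lb]
        have := hE.2 k
        rw [Fin.prod_univ_castSucc] at this
        rcases prod_or (fun i : Fin s => blk ω i.castSucc k) with h | h
        · rw [h, one_mul] at this
          rw [h, this]
        · rw [h] at this
          rw [h]
          linarith
      · rw [Fin.snoc_castSucc]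
    · intro y _
      funext i
      rw [blk_ub, Fin.snoc_castSucc]
  rw [h, Fintype.card_piFinset, Finset.prod_const, h2 D hD, Finset.card_univ, Fintype.card_fin,
    ← pow_mul]

theorem pMeas (h1 : S_Int) (h2 : S_Half) : S_Meas := by
  intro s D hD
  obtain ⟨hm, hl, -⟩ := h1 ((s + 1) * D)
  have hms : MeasurableSet {x : ℝ | InE (bits ((s + 1) * D) x)} :=
    hm (Set.toFinite {ω : Cu ((s + 1) * D) | InE ω}).measurableSet
  have hER : ER s D = Ioc (0 : ℝ) 1 ∩ {x : ℝ | InE (bits ((s + 1) * D) x)} := rfl
  refine ⟨by rw [hER]; exact measurableSet_Ioc.inter hms, ?_⟩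
  have e1 := hl (fun ω => if InE ω then 1 else 0)
  have e2 : ∫⁻ x in Ioc (0 : ℝ) 1, (if InE (bits ((s + 1) * D) x) then (1 : ℝ≥0∞) else 0) =
      volume (ER s D) := by
    have : (fun x : ℝ => if InE (bits ((s + 1) * D) x) then (1 : ℝ≥0∞) else 0) =
        {x : ℝ | InE (bits ((s + 1) * D) x)}.indicator 1 := by
      funext x
      by_cases hx : InE (bits ((s + 1) * D) x)
      · rw [if_pos hx, Set.indicator_of_mem (show x ∈ {x : ℝ | InE (bits ((s + 1) * D) x)} from hx)]
        rfl
      · rw [if_neg hx,
          Set.indicator_of_notMem (show x ∉ {x : ℝ | InE (bits ((s + 1) * D) x)} from hx)]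
    rw [this, lintegral_indicator_one hms, Measure.restrict_apply hms, hER, Set.inter_comm]
  rw [← e2, e1, ← Finset.sum_filter, Finset.sum_const, card_E h2 s D hD, nsmul_eq_mul, mul_one]
  have hpow : ∀ n : ℕ, ((2 : ℝ≥0∞) ^ n) = ENNReal.ofReal (2 ^ n) := by
    intro n
    rw [ENNReal.ofReal_pow (by norm_num)]
    norm_num
  rw [Nat.cast_pow, Nat.cast_ofNat, hpow, hpow, ← ENNReal.ofReal_div_of_pos (by positivity)]
  congr 1
  have e3 : (s + 1) * D = (D - 1) * s + (s + D) := by
    obtain ⟨m, rfl⟩ := hD
    have : 2 * m + 1 - 1 = 2 * m := by omega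
    rw [this]
    ring
  rw [e3, pow_add]
  field_simp

end Pool.Agent.MP777.Walsh
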