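import Pool.Agent.Lib.MP_777af9_an.Walsh.Spec

/-!
# MP_777af9_an: the Walsh model, partial sums of a function of the first digits (Part)
-/

open MeasureTheory Set Filter Topology
open scoped ENNReal

noncomputable section

namespace Pool.Agent.MP777.Walsh

private theorem part_sg (b : Bool) : sg b ^ 2 = 1 := by
  cases b <;> simp [sg]

private theorem part_ext {m : ℕ} (ω : Cu m) (p : ℕ) : ext ω p ^ 2 = 1 := by
  unfold ext
  split_ifs
  · exact part_sg _
  · norm_num

/-- Walsh functions are monomials in the digits. -/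
private theorem part_wal {m N : ℕ} (hN : N < 2 ^ m) (t : ℝ) :
    wal N t = W (ext (bits m t)) N := by
  unfold wal W
  refine Finset.prod_congr rfl fun k _ => ?_
  by_cases h : N.testBit k
  · rw [if_pos h, if_pos h]
    have hk : k < m := by
      by_contra hk
      have : N.testBit k = false :=
        Nat.testBit_lt_two_pow (lt_of_lt_of_le hN (Nat.pow_le_pow_right (by norm_num)
          (not_lt.1 hk)))
      rw [this] at h
      exact absurd h (by simp)
    unfold ext rad
    rw [dif_pos hk]
    show _ = sg (decide (¬ Even ⌊(2 : ℝ) ^ (k + 1) * t⌋))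
    unfold sg
    by_cases he : Even ⌊(2 : ℝ) ^ (k + 1) * t⌋
    · rw [if_pos he]
      simp [he]
    · rw [if_neg he]
      simp [he]
  · rw [if_neg h, if_neg h]

private theorem part_mul (z z' : ℕ → ℝ) (N : ℕ) :
    W z N * W z' N = W (fun k => z k * z' k) N := by
  unfold W
  rw [← Finset.prod_mul_distrib]
  refine Finset.prod_congr rfl fun k _ => ?_
  by_cases h : N.testBit k
  · rw [if_pos h, if_pos h, if_pos h]
  · rw [if_neg h, if_neg h, if_neg h, one_mul]

private theorem part_rg (f : ℕ → ℝ) {N K : ℕ} (hN : N < 2 ^ K) :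
    (∑ k ∈ Finset.range N, if N.testBit k then f k else 0) =
      ∑ k ∈ Finset.range K, if N.testBit k then f k else 0 := by
  have key : ∀ a b : ℕ, (∀ k, a ≤ k → N.testBit k = false) → a ≤ b →
      (∑ k ∈ Finset.range a, if N.testBit k then f k else 0) =
        ∑ k ∈ Finset.range b, if N.testBit k then f k else 0 := by
    intro a b ha hab
    refine Finset.sum_subset (Finset.range_subset_range.2 hab) ?_
    intro k _ hk
    rw [Finset.mem_range, not_lt] at hk
    rw [ha k hk]
    simp
  rw [key N (max N K) (fun k hk => Nat.testBit_lt_two_pow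
      (lt_of_lt_of_le Nat.lt_two_pow_self (Nat.pow_le_pow_right (by norm_num) hk)))
      (le_max_left _ _),
    key K (max N K) (fun k hk => Nat.testBit_lt_two_pow
      (lt_of_lt_of_le hN (Nat.pow_le_pow_right (by norm_num) hk))) (le_max_right _ _)]

theorem pPart (h1 : S_Int) (h2 : S_Dir) : S_Part := by
  intro m F N hN x
  set ξ : Cu m := bits m x with hξ
  have hco : ∀ M, M < 2 ^ m → wco (fun t => ((F (bits m t) : ℝ) : ℂ)) M =
      (((∑ ω, F ω * W (ext ω) M) / 2 ^ m : ℝ) : ℂ) := by
    intro M hM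
    have e1 : (fun t : ℝ => ((F (bits m t) : ℝ) : ℂ) * ((wal M t : ℝ) : ℂ)) =
        fun t => (fun ω : Cu m => ((F ω * W (ext ω) M : ℝ) : ℂ)) (bits m t) := by
      funext t
      rw [part_wal hM t]
      push_cast
      ring
    unfold wco
    rw [e1]
    refine ((h1 m).2.2 fun ω : Cu m => ((F ω * W (ext ω) M : ℝ) : ℂ)).trans ?_
    push_cast
    rfl
  have hS : wS N (fun t => ((F (bits m t) : ℝ) : ℂ)) x =
      ((∑ M ∈ Finset.range N, (∑ ω, F ω * W (ext ω) M) / 2 ^ m * W (ext ξ) M : ℝ) : ℂ) := by
    unfold wS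
    push_cast
    refine Finset.sum_congr rfl fun M hM => ?_
    have hM' : M < 2 ^ m := (Finset.mem_range.1 hM).trans hN
    rw [hco M hM', part_wal hM' x]
    push_cast
    rfl
  rw [hS]
  congr 1
  have e2 : ∑ M ∈ Finset.range N, (∑ ω, F ω * W (ext ω) M) / 2 ^ m * W (ext ξ) M =
      (∑ ω, F ω * ∑ M ∈ Finset.range N, W (fun k => ext ξ k * ext ω k) M) / 2 ^ m := by
    rw [Finset.sum_div]
    simp only [Finset.sum_div, Finset.sum_mul, Finset.mul_sum]
    rw [Finset.sum_comm]
    refine Finset.sum_congr rfl fun ω _ => ?_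
    refine Finset.sum_congr rfl fun M _ => ?_
    rw [← part_mul]
    ring
  have e3 : ∀ ω : Cu m, ∑ M ∈ Finset.range N, W (fun k => ext ξ k * ext ω k) M =
      wal N x * (W (ext ω) N * ∑ p ∈ Finset.range m,
        if N.testBit p then ext ξ p * ext ω p *
          ∏ q ∈ Finset.range p, (1 + ext ξ q * ext ω q) else 0) := by
    intro ω
    have hz : ∀ k, (fun k => ext ξ k * ext ω k) k ^ 2 = 1 := by
      intro k
      show (ext ξ k * ext ω k) ^ 2 = 1
      rw [mul_pow, part_ext, part_ext, one_mul]
    have e4 := h2 (fun k => ext ξ k * ext ω k) hz N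
    rw [e4, ← part_mul, part_wal hN x,
      part_rg (fun p => ext ξ p * ext ω p * ∏ q ∈ Finset.range p, (1 + ext ξ q * ext ω q)) hN]
    ring
  rw [e2]
  simp only [e3]
  rw [mul_div_assoc', Finset.mul_sum]
  congr 1
  refine Finset.sum_congr rfl fun ω _ => ?_
  ring

end Pool.Agent.MP777.Walsh
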