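import Pool.Agent.Lib.MP_777af9_an.Walsh.Defs

/-!
# MP_777af9_an: the Walsh model, statements and proofs

THEOREM. If the maximal operator of the Walsh-Fourier partial sums maps a Lorentz space `Λ_φ` into
`L¹`, then `φ(t) ≥ c t log^{3/2}(e/t)`. In particular it does not map `L log L` into `L¹`.

Every statement `S_X` has its complete proof in its docstring.
-/

open MeasureTheory Set Filter Topology
open scoped ENNReal

noncomputable section

namespace Pool.Agent.MP777.Walsh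

/-- **Int** (uses nothing). The digits of a uniform point of `(0,1]` are uniform on the cube.
PROOF. For `ω` in the cube put `a = ∑_{p<m} ω_p 2^(-p-1)` and `I_ω = [a, a + 2^(-m))`. For
`x = a + θ`, `0 ≤ θ < 2^(-m)`, and `p < m`: `2^(p+1) x` is the integer `∑_{q ≤ p} ω_q 2^(p-q)` plus
`∑_{q > p} ω_q 2^(p-q) + 2^(p+1) θ`, which is in `[0,1)`. So the floor is that integer, whose parity
is `ω_p`: `I_ω` is contained in `{bits m x = ω}` and in `[0,1)`. Hence
`|{x ∈ (0,1] : bits m x = ω}| ≥ 2^(-m)` for each of the `2^m` points `ω`, and the sum over `ω` of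
these measures is `1`: all are equal to `2^(-m)`. (Or by induction on `m`.) `bits m` is measurable
(floor is measurable, the target is finite), so both integrals are finite sums over the level
sets. -/
def S_Int : Prop := ∀ m : ℕ, Measurable (bits m) ∧
  (∀ F : Cu m → ℝ≥0∞, ∫⁻ x in Ioc (0 : ℝ) 1, F (bits m x) = (∑ ω, F ω) / 2 ^ m) ∧
  ∀ F : Cu m → ℂ, ∫ x in (0 : ℝ)..1, F (bits m x) = (∑ ω, F ω) / 2 ^ m

/-- **Dir** (uses nothing). Dirichlet kernel in the order of Paley.
PROOF. (a) `W z (M + 2^k) = z k * W z M` for `M < 2^k` (the binary digits of `M + 2^k` are those of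
`M` and the digit number `k`; a product over `range N` may be replaced by the product over any
larger range, as `N.testBit k` implies `k < N`). (b) `∑_{M < 2^k} W z M = ∏_{q<k} (1 + z q)` by
induction on `k` with (a). (c) Strong induction on `N`: for `N = 0` both sides are `0`. For
`N = 2^k + N'`, `N' < 2^k`: the left side is
`∏_{q<k} (1 + z q) + z k ∑_{M < N'} W z M`, and on the right `W z N = z k W z N'`, the term `p = k`
gives `z k W z N' z k ∏_{q<k} (1 + z q) = ∏_{q<k} (1 + z q)` since `z q (1 + z q) = 1 + z q`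
(`z q ^ 2 = 1`), the terms `p < k` give `z k W z N' ∑_{p : N'_p = 1} ... = z k ∑_{M<N'} W z M` by
the induction hypothesis. -/
def S_Dir : Prop := ∀ z : ℕ → ℝ, (∀ k, z k ^ 2 = 1) → ∀ N : ℕ,
  ∑ M ∈ Finset.range N, W z M = W z N * ∑ p ∈ Finset.range N,
    if N.testBit p then z p * ∏ q ∈ Finset.range p, (1 + z q) else 0

/-- **Part** (uses `S_Int`, `S_Dir`). Partial sums of a function of the first `m` digits.
PROOF. For `M < 2^m` and real `t`: `wal M t = W (ext (bits m t)) M` (for `p < m`,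
`rad p t = ext (bits m t) p`; digits `p ≥ m` of `M` are `0`). By `S_Int` the coefficient is
`wco f M = (∑ ω, F ω * W (ext ω) M) / 2^m`. With `z q = ext (bits m x) q * ext ω q` (a sequence with
`z^2 = 1`) `W (ext ω) M * wal M x = W z M`, so
`wS N f x = (∑ ω, F ω * ∑_{M<N} W z M) / 2^m`; apply `S_Dir` and `W z N = W (ext ω) N * wal N x`.
In the sum over `p` only `p < m` with `N.testBit p` matter (both ranges contain all of them). -/
def S_Part : Prop := ∀ (m : ℕ) (F : Cu m → ℝ) (N : ℕ), N < 2 ^ m → ∀ x : ℝ,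
  wS N (fun t => ((F (bits m t) : ℝ) : ℂ)) x =
    ((wal N x * ((∑ ω, F ω * W (ext ω) N * ∑ p ∈ Finset.range m,
      if N.testBit p then ext (bits m x) p * ext ω p *
        ∏ q ∈ Finset.range p, (1 + ext (bits m x) q * ext ω q) else 0) / 2 ^ m) : ℝ) : ℂ)

/-- **Half** (uses nothing). For odd `D` half of the cube is in `Mj`: the map `y ↦ -y` (all bits
flipped) exchanges `Mj` and its complement, the sum of an odd number of signs is not `0`. -/
def S_Half : Prop := ∀ D : ℕ, Odd D →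
  (Finset.univ.filter (fun y : Cu D => Mj y)).card = 2 ^ (D - 1)

/-- The summand of `S_Part` for the digit `p`, without the factor `W (ext ω) N`. -/
def ker {m : ℕ} (x ω : Cu m) (p : ℕ) : ℝ :=
  ext x p * ext ω p * ∏ q ∈ Finset.range p, (1 + ext x q * ext ω q)

/-- **Fac** (uses `S_Half`). Product structure of `E`.
PROOF. First part, `i : Fin s`, `p = k + D * i` (this is `finProdFinEquiv (i.castSucc, k)`). The
points of `E` correspond to the points `y : Fin s → Cu D` with all `Mj (y i')`: the last block is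
determined by the others (its signs are `∏_{i'} sg (y i' k)`). By definition `ker x ω p` depends
only on the digits `q ≤ p`, which lie in the blocks `≤ i`: it is
`∏_{i'<i} ∏_{k'} (1 + x_{i'k'} ω_{i'k'})` times
`x_{ik} ω_{ik} ∏_{k'<k} (1 + x_{ik'} ω_{ik'})`. So the sum over `ω ∈ E` is
`∑_{y : Fin s → Cu D} ∏_{i'} h_{i'} (y i') = ∏_{i'} ∑_y h_{i'} y` (`Finset.prod_univ_sum`), with
`h_{i'} y = [Mj y] ∏_{k'} (1 + x_{i'k'} y_{k'})` for `i' < i` (sum over `y`: the product is `2^D` if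
`y` is the block `i'` of `x`, else `0`: `2^D [Mj (blk x i')]`),
`h_i y = [Mj y] x_{ik} y_k ∏_{k'<k} (1 + x_{ik'} y_{k'})` (sum: `2^D kap k (blk x i)`),
`h_{i'} y = [Mj y]` for `i' > i` (sum: `2^(D-1)` by `S_Half`). Altogether
`2^(D i) 2^D 2^((D-1)(s-1-i)) kap k (blk x i)`, divided by `2^((s+1)D)` this is
`2^(i+1) kap k (blk x i) / 2^(s+D)`. Second part: `p = k + D * s` is in the last block, the
product over `q < p` contains the factor `∏_{k'} (1 + x_{jk'} ω_{jk'})` for every block `j < s`, it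
is zero unless the blocks `j` of `x` and `ω` agree, but one is not in `Mj`, the other is. -/
def S_Fac : Prop := ∀ s D : ℕ, Odd D → ∀ x : Cu ((s + 1) * D),
  (∀ (i : Fin s) (k : Fin D),
    (∑ ω : Cu ((s + 1) * D), (if InE ω then (1 : ℝ) else 0) * ker x ω ((k : ℕ) + D * (i : ℕ))) /
      2 ^ ((s + 1) * D) =
    (if ∀ i' : Fin s, i' < i → Mj (blk x i'.castSucc) then
      2 ^ ((i : ℕ) + 1) * kap k (blk x i.castSucc) else 0) / 2 ^ (s + D)) ∧
  ∀ j : Fin s, ¬ Mj (blk x j.castSucc) → ∀ (k : Fin D) (ω : Cu ((s + 1) * D)), InE ω →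
    ker x ω ((k : ℕ) + D * s) = 0

/-- **KE** (uses `S_Fac`). The quantity of `S_Part` for `F` = indicator of `E`, a frequency `N`
whose digits are `(v, v, ..., v)` (`s + 1` times) and a point `x` which leaves `E` in the block `j`.
PROOF. On `E` one has `W (ext ω) N = ∏_{i,k} (sg ω_{ik})^{v_k} = ∏_k (∏_i sg ω_{ik})^{v_k} = 1`
(write the product over `range N` as a product over `range ((s+1)*D)`, both contain all `p` with
`N.testBit p`, and the latter as a product over `Fin (s+1) × Fin D` by `finProdFinEquiv`). The sum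
over `p ∈ range ((s+1)*D)` is in the same way a sum over `(i, k)`, `p = k + D * i`. Exchange the sums;
the block `i = s` gives `0` by the second part of `S_Fac`; the blocks `i < s` are given by the first
part: for `i ≤ j` the condition holds, for `i > j` it fails at `i' = j`. -/
def S_KE : Prop := ∀ (s D N : ℕ) (v : Cu D), Odd D → N < 2 ^ ((s + 1) * D) →
  (∀ (i : Fin (s + 1)) (k : Fin D), N.testBit ((k : ℕ) + D * (i : ℕ)) = v k) →
  ∀ (x : Cu ((s + 1) * D)) (j : Fin s), (∀ i : Fin s, i < j → Mj (blk x i.castSucc)) →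
    ¬ Mj (blk x j.castSucc) →
    (∑ ω : Cu ((s + 1) * D), (if InE ω then (1 : ℝ) else 0) * W (ext ω) N *
      ∑ p ∈ Finset.range ((s + 1) * D), if N.testBit p then ext x p * ext ω p *
        ∏ q ∈ Finset.range p, (1 + ext x q * ext ω q) else 0) / 2 ^ ((s + 1) * D) =
    (∑ i ∈ Finset.univ.filter (fun i : Fin s => i ≤ j), 2 ^ ((i : ℕ) + 1) *
      ∑ k : Fin D, if v k then kap k (blk x i.castSucc) else 0) / 2 ^ (s + D)

/-- **Gain** (uses `S_Half`). PROOF. Write `kap k y = sg (y k) * c_k y` with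
`c_k y = 2^(-D) ∑_{ω : Mj ω} sg ω_k ∏_{q<k} (1 + sg y_q sg ω_q)`.
(a) `c_k ≥ 0`: pair `ω` with `ω_k = +` and the point `ω'` with the digit `k` flipped; the products
agree and are `≥ 0`, and `Mj ω'` implies `Mj ω`. (b) `c_k (-y) = c_k y` (`-y`: all bits flipped):
substitute `ω → -ω`, `[Mj (-ω)] = 1 - [Mj ω]` as `D` is odd, and
`∑_ω sg ω_k ∏_{q<k} (1 + ...) = 0` (flip the digit `k`). (c) `∑_k kap k y = [Mj y] - 1/2`: with
`z_q = sg y_q sg ω_q` one has `∑_k z_k ∏_{q<k} (1 + z_q) = ∏_{q<D} (1 + z_q) - 1`, the product is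
`2^D` if `ω = y` and `0` otherwise, and `#Mj = 2^(D-1)`. (d) For `y` not in `Mj`: (c) says
`∑_{k : y_k = +} c_k - ∑_{k : y_k = -} c_k = -1/2`, so
`|∑_{k : y_k = -} kap k y| = ∑_{k : y_k = -} c_k ≥ (1/2) ∑_k c_k y`.
(e) Hence `gn D ≥ (1/2) 2^(-D) ∑_{y not in Mj} ∑_k c_k y = (1/4) 2^(-D) ∑_y ∑_k c_k y` by (b) (the
flip exchanges `Mj` and its complement). (f) `2^(-D) ∑_y c_k y = 2^(-D) ∑_{ω : Mj ω} sg ω_k`
(`∑_y ∏_{q<k} (1 + sg y_q sg ω_q) = 2^D`), and the sum over `k` is
`2^(-D) ∑_{ω : Mj ω} (∑_k sg ω_k) = A1 D / 2` (flip again). So `gn D ≥ A1 D / 8`. -/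
def S_Gain : Prop := ∀ D : ℕ, Odd D → A1 D / 8 ≤ gn D

/-- **Var** (uses nothing). PROOF. Let `X y = ∑_{k : v k} kap k y`, `E` = average over the cube.
`kap k y = sg (y k) * c_k y`, where `c_k y` depends only on the digits `q < k` of `y`: for `k < l`
flipping the digit `l` of `y` changes the sign of `kap k y * kap l y`, so `E kap_k kap_l = 0`.
Therefore `E X^2 = ∑_{k : v k} E kap_k^2 ≤ ∑_k E kap_k^2 = E (∑_k kap_k)^2`, and
`∑_k kap k y = [Mj y] - P`, `P = #Mj / 2^D` (telescoping, (c) in `S_Gain`), so the last expectation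
is `P - P^2 ≤ 1/4`. Finally `(E |X|)^2 ≤ E X^2`. -/
def S_Var : Prop := ∀ (D : ℕ) (v : Cu D),
  (∑ y : Cu D, |∑ k : Fin D, if v k then kap k y else 0|) / 2 ^ D ≤ 1 / 2

/-- **Khin** (uses nothing). PROOF. `S = ∑_k sg (y k)`: `E S^2 = D`, `E S^4 = 3 D^2 - 2 D ≤ 3 D^2`
(induction on `D`: `E (S ± 1)^2 = E S^2 + 1`, `E (S ± 1)^4 = E S^4 + 6 E S^2 + 1`). For `u ≥ 0`:
`u ≥ u^2 - (4/27) u^4`, because `1 - u + (4/27) u^3 = (4/27) (u - 3/2)^2 (u + 3) ≥ 0`. With
`u = |S| / √D`: `E |S| ≥ √D (1 - (4/27) 3) = (5/9) √D`. -/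
def S_Khin : Prop := ∀ D : ℕ, 5 / 9 * Real.sqrt D ≤ A1 D

/-- **Low** (uses `S_Half`, `S_Var`). Sum over the exits.
PROOF. Fix `j`. By the triangle inequality the absolute value is at least
`2^(j+1) |∑_{k : x_j k} kap k (x_j)| - ∑_{i<j} 2^(i+1) |∑_{k : x_j k} kap k (x_i)|`. The average of
the first term over the exit event is a product over the blocks: `2^(j+1) (1/2)^j gn D = 2 gn D`
(blocks `i < j`: probability `1/2` by `S_Half`, blocks `> j` free). The average of the term `i` of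
the second sum is `2^(i+1) (1/2)^(j-1)` times the average over `x_j` not in `Mj` of
`2^(-D) ∑_{z ∈ Mj} |∑_{k : x_j k} kap k z| ≤ 1/2` (`S_Var` with `v = x_j`), and `x_j` not in `Mj` has
probability `1/2`: at most `2^(i+1) 2^(-(j-1)) (1/2) (1/2) = 2^(i-j)`. The sum over `i < j` is
`≤ 1`. -/
def S_Low : Prop := ∀ s D : ℕ, Odd D → (s : ℝ) * (2 * gn D - 1) ≤
  ∑ j : Fin s, (∑ x : Fin s → Cu D, if (∀ i, i < j → Mj (x i)) ∧ ¬ Mj (x j) then
    |∑ i ∈ Finset.univ.filter (fun i : Fin s => i ≤ j), 2 ^ ((i : ℕ) + 1) *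
      ∑ k : Fin D, if x j k then kap k (x i) else 0| else 0) / 2 ^ (s * D)

/-- **Meas** (uses `S_Int`, `S_Half`). PROOF. `E` has `(2^(D-1))^s` points (see `S_Fac`: the last
block is determined by the others), so by `S_Int` the measure is
`2^((D-1)s) / 2^((s+1)D) = 2^(-s-D)`. -/
def S_Meas : Prop := ∀ s D : ℕ, Odd D →
  MeasurableSet (ER s D) ∧ volume (ER s D) = ENNReal.ofReal (1 / 2 ^ (s + D))

/-- **Main** (uses `S_Int`, `S_Part`, `S_KE`, `S_Low`). PROOF. On `(0,1]` the indicator of `ER s D`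
is `F (bits m x)`, `m = (s+1) D`, `F` = indicator of `E`. For `x` which leaves `E` in the block `j`
take `N` with digits `(v, ..., v)`, `v = blk (bits m x) j` (`Nat.ofBits`); `|wal N x| = 1`, so by
`S_Part` and `S_KE` the maximal function at `x` is at least
`|∑_{i ≤ j} 2^(i+1) ∑_{k : x_j k} kap k (x_i)| / 2^(s+D)`. The exit events are disjoint. Integrate
with `S_Int`, sum over the last block (factor `2^D`), `S_Low`. -/
def S_Main : Prop := ∀ s D : ℕ, Odd D →
  ENNReal.ofReal (s * (2 * gn D - 1) / 2 ^ (s + D)) ≤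
    WL1 ((ER s D).indicator (fun _ => (1 : ℂ)))

/-- **Fin** (uses `S_Gain`, `S_Khin`, `S_Meas`, `S_Main`). PROOF. `lor φ` of the indicator of
`ER s D` is `φ (2^(-s-D))`. So an admissible `φ` satisfies
`c φ (2^(-2D)) ≥ D ((5/36) √D - 1) 2^(-2D) ≥ (5/72) D^(3/2) 2^(-2D)` for odd `D ≥ 209` (`s = D`). For
`0 < t ≤ 1` let `D` be the least odd number `≥ 209` with `2^(-2D) ≤ t` and use monotonicity. -/
def S_Fin : Prop :=
  (∀ φ : ℝ → ℝ, LorFun φ → AdmW φ → ∃ c : ℝ, 0 < c ∧ ∀ t : ℝ, 0 < t → t ≤ 1 →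
    c * (t * Real.log (Real.exp 1 / t) ^ (3 / 2 : ℝ)) ≤ φ t) ∧
  ¬ AdmW phi1

end Pool.Agent.MP777.Walsh
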