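import Pool.Agent.Lib.MP_777af9_an.Walsh.Spec

/-!
# MP_777af9_an: the Walsh model, module Var (variance of the exit terms)
-/

open MeasureTheory Set Filter Topology
open scoped ENNReal

noncomputable section

namespace Pool.Agent.MP777.Walsh

/-- The point `y` with the digit `l` flipped. -/
private def Var_flip {D : ℕ} (l : Fin D) (y : Cu D) : Cu D := Function.update y l (!(y l))

private theorem Var_sg_not (b : Bool) : sg (!b) = -sg b := by
  cases b <;> simp [sg]

private theorem Var_sg_sq (b : Bool) : sg b * sg b = 1 := by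
  cases b <;> simp [sg]

private theorem Var_flip_ne {D : ℕ} (l q : Fin D) (h : q ≠ l) (y : Cu D) :
    Var_flip l y q = y q := by
  unfold Var_flip
  rw [Function.update_of_ne h]

private theorem Var_flip_self {D : ℕ} (l : Fin D) (y : Cu D) : Var_flip l y l = !(y l) := by
  unfold Var_flip
  rw [Function.update_self]

private theorem Var_kap_lt {D : ℕ} (k l : Fin D) (h : k < l) (y : Cu D) :
    kap k (Var_flip l y) = kap k y := by
  unfold kap
  congr 1
  refine Finset.sum_congr rfl fun ω _ => ?_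
  have h1 : Var_flip l y k = y k := Var_flip_ne l k h.ne y
  have h2 : ∏ q ∈ Finset.univ.filter (fun q => q < k), (1 + sg (Var_flip l y q) * sg (ω q)) =
      ∏ q ∈ Finset.univ.filter (fun q => q < k), (1 + sg (y q) * sg (ω q)) := by
    refine Finset.prod_congr rfl fun q hq => ?_
    rw [Var_flip_ne l q ((Finset.mem_filter.1 hq).2.trans h).ne y]
  rw [h1, h2]

private theorem Var_kap_self {D : ℕ} (l : Fin D) (y : Cu D) :
    kap l (Var_flip l y) = -kap l y := by
  unfold kap
  rw [← neg_div, ← Finset.sum_neg_distrib]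
  congr 1
  refine Finset.sum_congr rfl fun ω _ => ?_
  have h2 : ∏ q ∈ Finset.univ.filter (fun q => q < l), (1 + sg (Var_flip l y q) * sg (ω q)) =
      ∏ q ∈ Finset.univ.filter (fun q => q < l), (1 + sg (y q) * sg (ω q)) := by
    refine Finset.prod_congr rfl fun q hq => ?_
    rw [Var_flip_ne l q (Finset.mem_filter.1 hq).2.ne y]
  rw [Var_flip_self, Var_sg_not, h2]
  split_ifs
  · ring
  · rw [neg_zero]

private theorem Var_orth {D : ℕ} (k l : Fin D) (h : k < l) :
    ∑ y : Cu D, kap k y * kap l y = 0 := by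
  refine Finset.sum_involution (fun y _ => Var_flip l y) ?_ ?_ ?_ ?_
  · intro y _
    rw [Var_kap_lt k l h, Var_kap_self]
    ring
  · intro y _ _ h1
    have h2 := congrFun h1 l
    rw [Var_flip_self] at h2
    cases hy : y l <;> simp [hy] at h2
  · intro y _
    exact Finset.mem_univ _
  · intro y _
    funext q
    by_cases hq : q = l
    · subst hq
      rw [Var_flip_self, Var_flip_self, Bool.not_not]
    · rw [Var_flip_ne l q hq, Var_flip_ne l q hq]

private theorem Var_sq {D : ℕ} (a : Fin D → ℝ) :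
    ∑ y : Cu D, (∑ k, a k * kap k y) ^ 2 = ∑ k, a k ^ 2 * ∑ y : Cu D, kap k y ^ 2 := by
  have h1 : ∀ y : Cu D, (∑ k, a k * kap k y) ^ 2 =
      ∑ k, ∑ l, a k * a l * (kap k y * kap l y) := by
    intro y
    rw [sq, Finset.sum_mul_sum]
    refine Finset.sum_congr rfl fun k _ => Finset.sum_congr rfl fun l _ => ?_
    ring
  rw [Finset.sum_congr rfl fun y _ => h1 y, Finset.sum_comm]
  refine Finset.sum_congr rfl fun k _ => ?_
  rw [Finset.sum_comm, Finset.sum_eq_single k]
  · rw [← Finset.mul_sum, sq]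
    congr 1
    exact Finset.sum_congr rfl fun y _ => (sq _).symm
  · intro l _ hl
    rw [← Finset.mul_sum]
    rcases lt_or_gt_of_ne hl with h | h
    · have h2 := Var_orth l k h
      have h3 : ∑ y : Cu D, kap k y * kap l y = 0 := by
        rw [← h2]
        exact Finset.sum_congr rfl fun y _ => mul_comm _ _
      rw [h3, mul_zero]
    · rw [Var_orth k l h, mul_zero]
  · intro h
    exact absurd (Finset.mem_univ k) h

private theorem Var_prod {D : ℕ} (y ω : Cu D) :
    ∏ q, (1 + sg (y q) * sg (ω q)) = if ω = y then (2 : ℝ) ^ D else 0 := by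
  split_ifs with h
  · subst h
    have h1 : ∀ q : Fin D, 1 + sg (ω q) * sg (ω q) = 2 := by
      intro q
      rw [Var_sg_sq]
      norm_num
    rw [Finset.prod_congr rfl fun q _ => h1 q, Finset.prod_const, Finset.card_univ,
      Fintype.card_fin]
  · obtain ⟨q, hq⟩ := Function.ne_iff.1 h
    refine Finset.prod_eq_zero (Finset.mem_univ q) ?_
    cases h1 : ω q <;> cases h2 : y q <;> simp [sg, h1, h2] at hq ⊢

private theorem Var_tel {D : ℕ} (y : Cu D) : ∑ k, kap k y =
    (if Mj y then 1 else 0) - (∑ ω : Cu D, if Mj ω then (1 : ℝ) else 0) / 2 ^ D := by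
  have h2D : (2 : ℝ) ^ D ≠ 0 := by positivity
  unfold kap
  rw [← Finset.sum_div, Finset.sum_comm]
  have h1 : ∀ ω : Cu D, (∑ k : Fin D, if Mj ω then
      sg (y k) * sg (ω k) * ∏ q ∈ Finset.univ.filter (fun q => q < k), (1 + sg (y q) * sg (ω q))
      else 0) = (if ω = y then (if Mj y then (2 : ℝ) ^ D else 0) else 0) -
        (if Mj ω then (1 : ℝ) else 0) := by
    intro ω
    by_cases hM : Mj ω
    · simp only [if_pos hM]
      have h2 := Finset.prod_add_ordered (Finset.univ : Finset (Fin D)) (fun _ => (1 : ℝ))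
        (fun q => sg (y q) * sg (ω q))
      simp only [Finset.prod_const_one, mul_one] at h2
      rw [Var_prod] at h2
      have h3 : (∑ k : Fin D, sg (y k) * sg (ω k) *
          ∏ q ∈ Finset.univ.filter (fun q => q < k), (1 + sg (y q) * sg (ω q))) =
          (if ω = y then (2 : ℝ) ^ D else 0) - 1 := by
        rw [h2]
        ring
      rw [h3]
      by_cases h4 : ω = y
      · rw [if_pos h4, if_pos h4, if_pos (h4 ▸ hM)]
      · rw [if_neg h4, if_neg h4]
    · simp only [if_neg hM, Finset.sum_const_zero, sub_zero]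
      by_cases h4 : ω = y
      · rw [if_pos h4, if_neg (h4 ▸ hM)]
      · rw [if_neg h4]
  rw [Finset.sum_congr rfl fun ω _ => h1 ω, Finset.sum_sub_distrib, sub_div]
  congr 1
  rw [Finset.sum_ite_eq' Finset.univ y, if_pos (Finset.mem_univ y)]
  split_ifs
  · exact div_self h2D
  · exact zero_div _

theorem pVar : S_Var := by
  intro D v
  have h2D : (0 : ℝ) < 2 ^ D := by positivity
  have hcard : ((Finset.univ : Finset (Cu D)).card : ℝ) = 2 ^ D := by
    rw [Finset.card_univ, Fintype.card_fun, Fintype.card_bool, Fintype.card_fin]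
    norm_cast
  have h1 : ∑ y : Cu D, (∑ k : Fin D, if v k then kap k y else 0) ^ 2 ≤
      ∑ y : Cu D, (∑ k : Fin D, kap k y) ^ 2 := by
    have e1 := Var_sq (fun k : Fin D => if v k then (1 : ℝ) else 0)
    have e2 := Var_sq (fun _ : Fin D => (1 : ℝ))
    have e3 : ∀ y : Cu D, (∑ k : Fin D, (if v k then (1 : ℝ) else 0) * kap k y) =
        ∑ k : Fin D, if v k then kap k y else 0 := by
      intro y
      refine Finset.sum_congr rfl fun k _ => ?_
      split_ifs
      · exact one_mul _
      · exact zero_mul _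
    simp only [e3] at e1
    simp only [one_mul] at e2
    rw [e1, e2]
    refine Finset.sum_le_sum fun k _ => ?_
    have e4 : 0 ≤ ∑ y : Cu D, kap k y ^ 2 := Finset.sum_nonneg fun y _ => sq_nonneg _
    split_ifs
    · rw [one_pow]
    · rw [zero_pow two_ne_zero, zero_mul, one_pow, one_mul]
      exact e4
  obtain ⟨P, hP⟩ : ∃ P : ℝ, P = (∑ ω : Cu D, if Mj ω then (1 : ℝ) else 0) / 2 ^ D := ⟨_, rfl⟩
  have hP' : ∑ ω : Cu D, (if Mj ω then (1 : ℝ) else 0) = P * 2 ^ D := by
    rw [hP, div_mul_cancel₀ _ h2D.ne']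
  have h2 : ∑ y : Cu D, (∑ k : Fin D, kap k y) ^ 2 = 2 ^ D * (P - P ^ 2) := by
    have e1 : ∀ y : Cu D, (∑ k : Fin D, kap k y) ^ 2 =
        (1 - 2 * P) * (if Mj y then (1 : ℝ) else 0) + P ^ 2 * 1 := by
      intro y
      rw [Var_tel, ← hP]
      split_ifs <;> ring
    rw [Finset.sum_congr rfl fun y _ => e1 y, Finset.sum_add_distrib, ← Finset.mul_sum,
      ← Finset.mul_sum, hP', Finset.sum_const, nsmul_eq_mul, hcard]
    ring
  have h3 := sq_sum_le_card_mul_sum_sq (s := (Finset.univ : Finset (Cu D)))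
    (f := fun y => |∑ k : Fin D, if v k then kap k y else 0|)
  simp only [sq_abs] at h3
  rw [hcard] at h3
  have h4 : (∑ y : Cu D, |∑ k : Fin D, if v k then kap k y else 0|) ^ 2 ≤
      (2 ^ D * (1 / 2)) ^ 2 := by
    refine h3.trans ((mul_le_mul_of_nonneg_left (h1.trans h2.le) h2D.le).trans ?_)
    have e1 : P - P ^ 2 ≤ 1 / 4 := by nlinarith [sq_nonneg (P - 1 / 2)]
    have e2 : (2 : ℝ) ^ D * (2 ^ D * (P - P ^ 2)) ≤ 2 ^ D * (2 ^ D * (1 / 4)) := by
      gcongr
    refine e2.trans (le_of_eq ?_)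
    ring
  have h5 := abs_le_of_sq_le_sq h4 (by positivity)
  rw [div_le_iff₀ h2D, mul_comm]
  exact (le_abs_self _).trans h5

end Pool.Agent.MP777.Walsh
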